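import Pool.Agent.BE01.Stmts

/-!
# Squad BE01 (MP_be01ff_an): the abstract theorem after a change of the time scale
-/

namespace Pool.Agent.Helper70BE01Scl

open Pool.Agent.BE01
open Set Filter Topology
open scoped InnerProductSpace

noncomputable section

/-- The abstract theorem, with the condition `(2p+1) ‖φ‖^(2p) < K p c_p γ` on the order. -/
def SclStmt : Prop := ∀ (X Y H : Type) [NormedCommRing X] [NormedAlgebra ℝ X]
  [CompleteSpace X] [NormedAddCommGroup Y] [NormedSpace ℝ Y] [CompleteSpace Y]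
  [NormedAddCommGroup H] [InnerProductSpace ℝ H] [CompleteSpace H] (A : Alg X Y H) (W : Wv A)
  (p : ℕ) (a0 ω : ℝ) (φ : H) (K : ℕ), 1 ≤ p → 0 < a0 → 0 < ω →
  φ ≠ 0 → (ω ^ 2) • W.S φ = φ → 0 < ⟪A.e (W.SX ((ω ^ 2) • φ) ^ (2 * p + 1)), φ⟫_ℝ → 1 ≤ K →
  (2 * p + 1) * ‖W.SX ((ω ^ 2) • φ)‖ ^ (2 * p) <
    K * (p * cp p * (⟪A.e (W.SX ((ω ^ 2) • φ) ^ (2 * p + 1)), φ⟫_ℝ / ⟪φ, φ⟫_ℝ)) →
  Slv W.S ω φ (1 + 2 * p * K) →
  ∃ (t0 c C : ℝ) (u : ℝ → H) (x : ℝ → X) (k w h : ℝ → H), 1 ≤ t0 ∧ 0 < c ∧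
    ContinuousOn w (Ioi t0) ∧ ContinuousOn h (Ioi t0) ∧
    ∀ t > t0, HasDerivAt u (A.e (x t)) t ∧ HasDerivAt (fun s => A.e (x s)) (w t) t ∧
      x t = W.SX (k t) ∧ u t = W.S (h t) ∧ w t + h t + a0 • A.e (x t ^ (2 * p + 1)) = 0 ∧
      c * t ^ (- (1 / (p : ℝ))) ≤ ‖A.e (x t)‖ ^ 2 + ⟪h t, W.S (h t)⟫_ℝ ∧
      ‖A.e (x t)‖ ^ 2 + ⟪h t, W.S (h t)⟫_ℝ ≤ C * t ^ (- (1 / (p : ℝ)))

theorem cp_pos (p : ℕ) : 0 < cp p := by
  unfold cp
  refine mul_pos (by positivity) ?_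
  refine intervalIntegral.integral_pos (by positivity) (by fun_prop) ?_ ?_
  · intro x _
    have : 2 * p + 2 = 2 * (p + 1) := by ring
    rw [this, pow_mul]
    positivity
  · refine ⟨Real.pi / 2, ⟨by positivity, by linarith [Real.pi_pos]⟩, ?_⟩
    rw [Real.sin_pi_div_two, one_pow]
    exact one_pos

section

variable {X Y H : Type} [NormedCommRing X] [NormedAlgebra ℝ X] [NormedAddCommGroup Y]
  [NormedSpace ℝ Y] [NormedAddCommGroup H] [InnerProductSpace ℝ H]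

/-- The operators for the equation in the time variable `λ t`. -/
def scW {A : Alg X Y H} (W : Wv A) (r : ℝ) (hr : 0 < r) : Wv A where
  S := (r ^ 2) • W.S
  R := r • W.R
  C := fun τ => W.C (τ / r)
  Sn := fun τ => W.Sn (τ / r)
  SX := (r ^ 2) • W.SX
  RY := r • W.RY
  prp := by
    have hr0 : r ≠ 0 := hr.ne'
    refine ⟨?_, ?_, ?_, ?_, ?_, ?_, ?_, ?_, ?_, ?_, ?_, ?_, ?_⟩
    · intro h
      simp only [ContinuousLinearMap.smul_apply, map_smul, W.prp.RR, smul_smul, sq]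
    · intro h k hk
      simp only [ContinuousLinearMap.smul_apply] at hk
      exact W.prp.R_inj (smul_right_injective H hr0 hk)
    · intro h k
      simp only [ContinuousLinearMap.smul_apply, real_inner_smul_left, real_inner_smul_right,
        W.prp.R_symm]
    · intro h
      simp only [zero_div, W.prp.C_zero]
    · intro h
      simp only [zero_div, W.prp.Sn_zero]
    · intro τ h
      exact W.prp.C_le _ h
    · intro τ h
      exact W.prp.Sn_le _ h
    · intro h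
      exact (W.prp.C_cont h).comp (continuous_id.div_const r)
    · intro h
      exact (W.prp.Sn_cont h).comp (continuous_id.div_const r)
    · intro τ h
      simp only [ContinuousLinearMap.smul_apply, W.prp.R_C, map_smul]
    · intro τ h
      simp only [ContinuousLinearMap.smul_apply, W.prp.R_Sn, map_smul]
    · intro h τ
      have h1 := ((W.prp.dS h (τ / r)).scomp τ ((hasDerivAt_id τ).div_const r)).const_smul r
      have e : r • (1 / r) • (W.C (τ / r)) h = (W.C (τ / r)) h := by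
        rw [smul_smul, mul_one_div_cancel hr0, one_smul]
      rw [e] at h1
      exact h1
    · intro h τ
      have h1 := ((W.prp.dC h (τ / r)).scomp τ ((hasDerivAt_id τ).div_const r)).const_smul r
      have e : r • (1 / r) • (-(W.Sn (τ / r)) h) = -(W.Sn (τ / r)) h := by
        rw [smul_smul, mul_one_div_cancel hr0, one_smul]
      rw [e] at h1
      exact h1
  e_SX := by
    intro h
    simp only [ContinuousLinearMap.smul_apply, map_smul, W.e_SX]
  j_RY := by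
    intro h
    simp only [ContinuousLinearMap.smul_apply, map_smul, W.j_RY]

end

theorem kap_lim (p : ℕ) (ω nφ γ : ℝ) (K : ℕ) (hp : 1 ≤ p) (hγ : 0 < γ)
    (h : (2 * p + 1) * nφ ^ (2 * p) < K * (p * cp p * γ)) :
    ∃ r : ℝ, 0 < r ∧ kap p (ω / r) nφ γ ≤ K := by
  have hp0 : (0 : ℝ) < p := by exact_mod_cast hp
  have hD : 0 < p * cp p * γ := mul_pos (mul_pos hp0 (cp_pos p)) hγ
  have hlim : Tendsto (fun r : ℝ => (2 * p + 1) * (1 + 2 * p * (ω / r)) ^ 2 * nφ ^ (2 * p))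
      atTop (𝓝 ((2 * p + 1) * (1 + 2 * p * 0) ^ 2 * nφ ^ (2 * p))) := by
    have h1 : Tendsto (fun r : ℝ => ω / r) atTop (𝓝 0) := tendsto_const_nhds.div_atTop tendsto_id
    exact ((((h1.const_mul (2 * (p : ℝ))).const_add 1).pow 2).const_mul _).mul_const _
  have h2 : (2 * p + 1) * (1 + 2 * p * 0) ^ 2 * nφ ^ (2 * p) < K * (p * cp p * γ) := by
    have : (2 * (p : ℝ) + 1) * (1 + 2 * p * 0) ^ 2 * nφ ^ (2 * p) = (2 * p + 1) * nφ ^ (2 * p) := by
      ring
    rw [this]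
    exact h
  obtain ⟨r, hr1, hr2⟩ := ((hlim.eventually (eventually_lt_nhds h2)).and
    (eventually_gt_atTop (0 : ℝ))).exists
  refine ⟨r, hr2, ?_⟩
  unfold kap
  rw [div_le_iff₀ hD]
  exact hr1.le

theorem scl (ABS : AbsStmt) : SclStmt := by
  intro X Y H _ _ _ _ _ _ _ _ _ A W p a0 ω φ K hp ha0 hω hφ hSφ hγ hK hkap hslv
  have hφn : 0 < ⟪φ, φ⟫_ℝ := real_inner_self_pos.2 hφ
  obtain ⟨r, hr, hkr⟩ := kap_lim p ω ‖W.SX ((ω ^ 2) • φ)‖
    (⟪A.e (W.SX ((ω ^ 2) • φ) ^ (2 * p + 1)), φ⟫_ℝ / ⟪φ, φ⟫_ℝ) K hp (div_pos hγ hφn) hkap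
  have hr0 : r ≠ 0 := hr.ne'
  have hp0 : (0 : ℝ) < p := by exact_mod_cast hp
  have e1 : (scW W r hr).SX (((ω / r) ^ 2) • φ) = W.SX ((ω ^ 2) • φ) := by
    show (r ^ 2) • W.SX (((ω / r) ^ 2) • φ) = W.SX ((ω ^ 2) • φ)
    rw [map_smul, map_smul, smul_smul]
    congr 1
    field_simp
  have e2 : ((ω / r) ^ 2) • (scW W r hr).S φ = φ := by
    show ((ω / r) ^ 2) • (r ^ 2) • W.S φ = φ
    rw [smul_smul]
    have : (ω / r) ^ 2 * r ^ 2 = ω ^ 2 := by field_simp
    rw [this, hSφ]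
  have e3 : Slv (scW W r hr).S (ω / r) φ (1 + 2 * p * K) := by
    refine ⟨?_, ?_⟩
    · intro F hF
      obtain ⟨q, hq⟩ := hslv.one F hF
      refine ⟨q, ?_⟩
      show q - ((ω / r) ^ 2) • (r ^ 2) • W.S q = F
      rw [smul_smul]
      have : (ω / r) ^ 2 * r ^ 2 = ω ^ 2 := by field_simp
      rw [this, hq]
    · intro n h1 h2 h3 F
      obtain ⟨q, hq⟩ := hslv.odd n h1 h2 h3 F
      refine ⟨q, ?_⟩
      show q - ((n : ℝ) ^ 2 * (ω / r) ^ 2) • (r ^ 2) • W.S q = F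
      rw [smul_smul]
      have : (n : ℝ) ^ 2 * (ω / r) ^ 2 * r ^ 2 = (n : ℝ) ^ 2 * ω ^ 2 := by field_simp
      rw [this, hq]
  have ha1 : 0 < a0 * r ^ (2 * p - 1) := by positivity
  obtain ⟨t0, c, C, u, x, k, w, h, ht0, hc, hwc, hhc, HH⟩ := ABS X Y H A (scW W r hr) p
    (a0 * r ^ (2 * p - 1)) (ω / r) φ K hp ha1 (by positivity) hφ e2 (by rw [e1]; exact hγ) hK
    (by rw [e1]; exact hkr) e3
  -- time `t0 / r` may be less than 1
  set t1 : ℝ := max 1 (t0 / r) with ht1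
  have hgt : ∀ t > t1, t0 < r * t := by
    intro t ht
    have : t0 / r < t := lt_of_le_of_lt (le_max_right _ _) ht
    rw [div_lt_iff₀ hr] at this
    linarith
  have hmaps : MapsTo (fun t : ℝ => r * t) (Ioi t1) (Ioi t0) := fun t ht => hgt t ht
  refine ⟨t1, r ^ 2 * c * r ^ (-(1 / (p : ℝ))), r ^ 2 * C * r ^ (-(1 / (p : ℝ))),
    fun t => u (r * t), fun t => r • x (r * t), fun t => (r ^ 3) • k (r * t),
    fun t => (r ^ 2) • w (r * t), fun t => (r ^ 2) • h (r * t), le_max_left _ _, by positivity,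
    ?_, ?_, ?_⟩
  · exact (hwc.comp (by fun_prop) hmaps).const_smul _
  · exact (hhc.comp (by fun_prop) hmaps).const_smul _
  · intro t ht
    have htp : 0 < t := lt_of_lt_of_le one_pos ((le_max_left _ _).trans ht.le)
    obtain ⟨hu, hv, hx, hSh, heq, hlo, hup⟩ := HH (r * t) (hgt t ht)
    have hm : HasDerivAt (fun s : ℝ => r * s) r t := by
      have := (hasDerivAt_id t).const_mul r
      rw [mul_one] at this
      exact this
    have hSh' : u (r * t) = (r ^ 2) • W.S (h (r * t)) := hSh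
    have hx' : x (r * t) = (r ^ 2) • W.SX (k (r * t)) := hx
    have hen : ‖A.e (r • x (r * t))‖ ^ 2 + ⟪(r ^ 2) • h (r * t), W.S ((r ^ 2) • h (r * t))⟫_ℝ =
        r ^ 2 * (‖A.e (x (r * t))‖ ^ 2 + ⟪h (r * t), (scW W r hr).S (h (r * t))⟫_ℝ) := by
      have h1 : ⟪h (r * t), (scW W r hr).S (h (r * t))⟫_ℝ = r ^ 2 * ⟪h (r * t), W.S (h (r * t))⟫_ℝ := by
        show ⟪h (r * t), (r ^ 2) • W.S (h (r * t))⟫_ℝ = _
        rw [real_inner_smul_right]
      rw [h1, map_smul, norm_smul, map_smul, real_inner_smul_left, real_inner_smul_right,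
        Real.norm_eq_abs, mul_pow, sq_abs]
      ring
    have hpow : (r * t) ^ (-(1 / (p : ℝ))) = r ^ (-(1 / (p : ℝ))) * t ^ (-(1 / (p : ℝ))) :=
      Real.mul_rpow hr.le htp.le
    refine ⟨?_, ?_, ?_, ?_, ?_, ?_, ?_⟩
    · have := hu.scomp t hm
      show HasDerivAt (fun t => u (r * t)) (A.e (r • x (r * t))) t
      rw [map_smul]
      exact this
    · have h1 := (hv.scomp t hm).const_smul r
      show HasDerivAt (fun s => A.e (r • x (r * s))) ((r ^ 2) • w (r * t)) t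
      have e4 : (fun s => A.e (r • x (r * s))) = fun s => r • A.e (x (r * s)) := by
        funext s
        rw [map_smul]
      rw [e4, sq, ← smul_smul]
      exact h1
    · show r • x (r * t) = W.SX ((r ^ 3) • k (r * t))
      rw [hx', map_smul, smul_smul]
      congr 1
      ring
    · show u (r * t) = W.S ((r ^ 2) • h (r * t))
      rw [hSh', map_smul]
    · show (r ^ 2) • w (r * t) + (r ^ 2) • h (r * t) + a0 • A.e ((r • x (r * t)) ^ (2 * p + 1)) = 0
      have h1 : a0 • A.e ((r • x (r * t)) ^ (2 * p + 1)) =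
          (r ^ 2) • ((a0 * r ^ (2 * p - 1)) • A.e (x (r * t) ^ (2 * p + 1))) := by
        rw [smul_pow, map_smul, smul_smul, smul_smul]
        congr 1
        have : 2 * p + 1 = 2 + (2 * p - 1) := by omega
        rw [this, pow_add]
        have h3 : 2 + (2 * p - 1) - 2 = 2 * p - 1 := by omega
        ring
      rw [h1, ← smul_add, ← smul_add, heq, smul_zero]
    · show r ^ 2 * c * r ^ (-(1 / (p : ℝ))) * t ^ (-(1 / (p : ℝ))) ≤
        ‖A.e (r • x (r * t))‖ ^ 2 + ⟪(r ^ 2) • h (r * t), W.S ((r ^ 2) • h (r * t))⟫_ℝ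
      rw [hen]
      rw [hpow] at hlo
      calc r ^ 2 * c * r ^ (-(1 / (p : ℝ))) * t ^ (-(1 / (p : ℝ)))
          = r ^ 2 * (c * (r ^ (-(1 / (p : ℝ))) * t ^ (-(1 / (p : ℝ))))) := by ring
        _ ≤ _ := mul_le_mul_of_nonneg_left hlo (by positivity)
    · show ‖A.e (r • x (r * t))‖ ^ 2 + ⟪(r ^ 2) • h (r * t), W.S ((r ^ 2) • h (r * t))⟫_ℝ ≤
        r ^ 2 * C * r ^ (-(1 / (p : ℝ))) * t ^ (-(1 / (p : ℝ)))
      rw [hen]
      rw [hpow] at hup
      calc _ ≤ r ^ 2 * (C * (r ^ (-(1 / (p : ℝ))) * t ^ (-(1 / (p : ℝ))))) :=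
            mul_le_mul_of_nonneg_left hup (by positivity)
        _ = _ := by ring

end

end Pool.Agent.Helper70BE01Scl
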