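import Mathlib

/-!
# MP_be01ff_an: the damped wave equation, formulated with functions
-/

namespace Pool.Agent.BE01F

open Set Filter Topology MeasureTheory
open scoped InnerProductSpace ENNReal

noncomputable section

/-- Euclidean space of dimension `d`. -/
abbrev E (d : ℕ) := EuclideanSpace ℝ (Fin d)

variable {d : ℕ}

/-- Lebesgue measure on `Ω`. -/
def vol (Ω : Set (E d)) : Measure (E d) := volume.restrict Ω

/-- The integral over `Ω`. -/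
def intg (Ω : Set (E d)) (f : E d → ℝ) : ℝ := ∫ x, f x ∂(vol Ω)

/-- `f = 0` almost everywhere in `Ω`. -/
def AeZero (Ω : Set (E d)) (f : E d → ℝ) : Prop := ∀ᵐ x ∂(vol Ω), f x = 0

/-- `f` is bounded: `|f| ≤ C` almost everywhere in `Ω` for some `C`. -/
def AeBdd (Ω : Set (E d)) (f : E d → ℝ) : Prop := ∃ C : ℝ, ∀ᵐ x ∂(vol Ω), |f x| ≤ C

/-- `f ∈ L^2(Ω)`. -/
def L2 (Ω : Set (E d)) (f : E d → ℝ) : Prop := MemLp f 2 (vol Ω)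

/-- `F ∈ L^2(Ω)^d`. -/
def L2v (Ω : Set (E d)) (F : E d → E d) : Prop := MemLp F 2 (vol Ω)

/-- The norm of `L^2(Ω)`. -/
def nrm (Ω : Set (E d)) (f : E d → ℝ) : ℝ≥0∞ := eLpNorm f 2 (vol Ω)

/-- The norm of `L^2(Ω)^d`. -/
def nrmv (Ω : Set (E d)) (F : E d → E d) : ℝ≥0∞ := eLpNorm F 2 (vol Ω)

/-- Test functions: smooth, with compact support contained in `Ω`. -/
def Test (Ω : Set (E d)) (ψ : E d → ℝ) : Prop :=
  ContDiff ℝ ((⊤ : ℕ∞) : WithTop ℕ∞) ψ ∧ HasCompactSupport ψ ∧ tsupport ψ ⊆ Ω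

/-- `u ∈ H^1_0(Ω)` and `F = ∇ u`: the pair `(u, F)` is in the closure in `L^2(Ω)` of the set of the
pairs `(ψ, ∇ ψ)`, `ψ` a test function. -/
def H10 (Ω : Set (E d)) (u : E d → ℝ) (F : E d → E d) : Prop :=
  L2 Ω u ∧ L2v Ω F ∧ ∀ ε : ℝ≥0∞, 0 < ε → ∃ ψ, Test Ω ψ ∧ nrm Ω (fun x => u x - ψ x) < ε ∧
    nrmv Ω (fun x => F x - gradient ψ x) < ε

/-- `v` is the derivative at time `t` in `L^2(Ω)` of the function `u` on `[0, ∞)`. -/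
def Der (Ω : Set (E d)) (u : ℝ → E d → ℝ) (v : E d → ℝ) (t : ℝ) : Prop :=
  Tendsto (fun s => nrm Ω (fun x => (s - t)⁻¹ * (u s x - u t x) - v x)) (𝓝[Ici 0 \ {t}] t) (𝓝 0)

/-- `w` is continuous at time `t`, with values in `L^2(Ω)`. -/
def Ct (Ω : Set (E d)) (w : ℝ → E d → ℝ) (t : ℝ) : Prop :=
  Tendsto (fun s => nrm Ω (fun x => w s x - w t x)) (𝓝[Ici 0] t) (𝓝 0)

/-- `G` is continuous at time `t`, with values in `L^2(Ω)^d`. -/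
def Ctv (Ω : Set (E d)) (G : ℝ → E d → E d) (t : ℝ) : Prop :=
  Tendsto (fun s => nrmv Ω (fun x => G s x - G t x)) (𝓝[Ici 0] t) (𝓝 0)

/-- The weak form of `w - div F + a |v|^α v = 0` in `Ω`. -/
def Weak (Ω : Set (E d)) (a α : ℝ) (v w : E d → ℝ) (F : E d → E d) : Prop :=
  ∀ ψ, Test Ω ψ →
    intg Ω (fun x => w x * ψ x + ⟪F x, gradient ψ x⟫_ℝ + a * |v x| ^ α * v x * ψ x) = 0

/-- `u` is a strong solution of `u_tt - Δ u + a |u_t|^α u_t = 0` in `[0,∞) × Ω`, `u = 0` on the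
boundary, with `v = u_t`, `w = u_tt`, `G = ∇ u`: `u` is twice continuously differentiable with
values in `L^2(Ω)`, `u(t)` and `u_t(t)` are in `H^1_0(Ω)`, `∇ u` is continuous with values in
`L^2(Ω)`, `u_t(t)` is bounded and the equation holds in the sense of distributions. -/
structure Sol (Ω : Set (E d)) (a α : ℝ) (u v w : ℝ → E d → ℝ) (G : ℝ → E d → E d) : Prop where
  dom : ∀ t, 0 ≤ t → H10 Ω (u t) (G t)
  vdom : ∀ t, 0 ≤ t → ∃ F, H10 Ω (v t) F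
  wdom : ∀ t, 0 ≤ t → L2 Ω (w t)
  du : ∀ t, 0 ≤ t → Der Ω u (v t) t
  dv : ∀ t, 0 ≤ t → Der Ω v (w t) t
  w_cont : ∀ t, 0 ≤ t → Ct Ω w t
  G_cont : ∀ t, 0 ≤ t → Ctv Ω G t
  v_bdd : ∀ t, 0 ≤ t → AeBdd Ω (v t)
  eq : ∀ t, 0 ≤ t → Weak Ω a α (v t) (w t) (G t)

/-- The energy `∫ u_t² + |∇ u|²`. -/
def energy (Ω : Set (E d)) (v : ℝ → E d → ℝ) (G : ℝ → E d → E d) (t : ℝ) : ℝ :=
  intg Ω (fun x => v t x ^ 2 + ‖G t x‖ ^ 2)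

/-- There is a strong solution with `c (1+t)^(-2/α) ≤ E(t) ≤ C (1+t)^(-2/α)`. -/
def SharpRate (Ω : Set (E d)) (a α : ℝ) : Prop :=
  ∃ u v w G, Sol Ω a α u v w G ∧ ∃ c C : ℝ, 0 < c ∧ c ≤ C ∧ ∀ t, 0 ≤ t →
    c * (1 + t) ^ (-(2 / α)) ≤ energy Ω v G t ∧ energy Ω v G t ≤ C * (1 + t) ^ (-(2 / α))

/-- There is a radial strong solution with `c (1+t)^(-2/α) ≤ E(t) ≤ C (1+t)^(-2/α)`. -/
def RadialRate (Ω : Set (E d)) (a α : ℝ) : Prop :=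
  ∃ u v w G, Sol Ω a α u v w G ∧ (∀ t, 0 ≤ t → ∃ f : ℝ → ℝ, AeZero Ω (fun x => u t x - f ‖x‖)) ∧
    ∃ c C : ℝ, 0 < c ∧ c ≤ C ∧ ∀ t, 0 ≤ t →
    c * (1 + t) ^ (-(2 / α)) ≤ energy Ω v G t ∧ energy Ω v G t ≤ C * (1 + t) ^ (-(2 / α))

/-- `u ∈ H^1_0(Ω)` and `- Δ u = l u` in the weak sense. -/
def Eig (Ω : Set (E d)) (l : ℝ) (u : E d → ℝ) : Prop :=
  ∃ F, H10 Ω u F ∧ ∀ ψ, Test Ω ψ →
    intg Ω (fun x => ⟪F x, gradient ψ x⟫_ℝ) = l * intg Ω (fun x => u x * ψ x)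

end

end Pool.Agent.BE01F
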