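import Pool.Agent.BE01.Stmts

/-!
# Squad BE01 (MP_be01ff_an): module LIA (backup)
-/

namespace Pool.Agent.Helper70BE01Lia

open Pool.Agent.BE01
open Set Filter Topology MeasureTheory
open scoped InnerProductSpace

noncomputable section

theorem pow_int (t m : ℝ) (ht : 0 < t) (hm : 1 < m) :
    IntegrableOn (fun τ : ℝ => (t + τ) ^ (-m)) (Ioi 0) ∧
    ∫ τ in Ioi (0 : ℝ), (t + τ) ^ (-m) = t ^ (1 - m) / (m - 1) := by
  have h1 : IntegrableOn (fun x : ℝ => x ^ (-m)) (Ioi t) :=
    integrableOn_Ioi_rpow_of_lt (by linarith) ht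
  have h2 := integral_Ioi_rpow_of_lt (a := -m) (by linarith) ht
  have hmp : MeasurePreserving (fun τ : ℝ => t + τ) := measurePreserving_add_left volume t
  have hme : MeasurableEmbedding (fun τ : ℝ => t + τ) := measurableEmbedding_addLeft t
  have hpre : (fun τ : ℝ => t + τ) ⁻¹' (Ioi t) = Ioi 0 := by
    ext τ
    simp
  constructor
  · have h3 := (hmp.integrableOn_comp_preimage hme (f := fun x : ℝ => x ^ (-m)) (s := Ioi t)).2 h1
    rw [hpre] at h3
    exact h3
  · have h3 := hmp.setIntegral_preimage_emb hme (fun x : ℝ => x ^ (-m)) (Ioi t)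
    rw [hpre] at h3
    rw [h3, h2]
    have h4 : -m + 1 = 1 - m := by ring
    rw [h4]
    have h5 : (1 - m) ≠ 0 := by linarith
    have h6 : (m - 1) ≠ 0 := by linarith
    field_simp
    ring

theorem lia : LiaStmt := by
  intro H _ _ _ T f t0 m N ht0 hm hT hTc hf hN
  -- the integrand is continuous
  have hcont : ∀ t > t0, ContinuousOn (fun τ => T τ (f (t + τ))) (Ioi 0) := by
    intro t ht τ hτ
    have hτ' : (0 : ℝ) < τ := hτ
    have hft : ContinuousAt f (t + τ) := hf.continuousAt (Ioi_mem_nhds (by linarith))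
    have hg : Tendsto (fun σ => f (t + σ)) (𝓝 τ) (𝓝 (f (t + τ))) :=
      hft.tendsto.comp (by
        have : Continuous fun σ : ℝ => t + σ := by fun_prop
        exact this.tendsto τ)
    refine ContinuousAt.continuousWithinAt ?_
    unfold ContinuousAt
    rw [tendsto_iff_norm_sub_tendsto_zero]
    have h1 : Tendsto (fun σ => ‖f (t + σ) - f (t + τ)‖ + ‖T σ (f (t + τ)) - T τ (f (t + τ))‖)
        (𝓝 τ) (𝓝 0) := by
      have a1 := tendsto_iff_norm_sub_tendsto_zero.1 hg
      have a2 := tendsto_iff_norm_sub_tendsto_zero.1 ((hTc (f (t + τ))).tendsto τ)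
      have := a1.add a2
      rw [add_zero] at this
      exact this
    refine squeeze_zero (fun σ => norm_nonneg _) (fun σ => ?_) h1
    have e : T σ (f (t + σ)) - T τ (f (t + τ)) =
        T σ (f (t + σ) - f (t + τ)) + (T σ (f (t + τ)) - T τ (f (t + τ))) := by
      rw [map_sub]
      abel
    rw [e]
    exact (norm_add_le _ _).trans (add_le_add (hT _ _) le_rfl)
  have hmeas : ∀ t > t0, AEStronglyMeasurable (fun τ => T τ (f (t + τ)))
      (volume.restrict (Ioi 0)) := fun t ht =>
    (hcont t ht).aestronglyMeasurable measurableSet_Ioi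
  have hbd : ∀ t > t0, ∀ τ ∈ Ioi (0 : ℝ), ‖T τ (f (t + τ))‖ ≤ N * (t + τ) ^ (-m) := by
    intro t ht τ hτ
    have hτ' : (0 : ℝ) < τ := hτ
    exact (hT _ _).trans (hN _ (by show t0 < t + τ; linarith))
  have hint : ∀ t > t0, IntegrableOn (fun τ => T τ (f (t + τ))) (Ioi 0) := by
    intro t ht
    have hb := ((pow_int t m (ht0.trans ht) hm).1).const_mul N
    refine Integrable.mono' hb (hmeas t ht) ?_
    filter_upwards [ae_restrict_mem measurableSet_Ioi] with τ hτ
    exact hbd t ht τ hτ
  have hN0 : 0 ≤ N := by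
    have h1 := (norm_nonneg _).trans (hN (t0 + 1) (by show t0 < t0 + 1; linarith))
    have h2 : 0 < (t0 + 1) ^ (-m) := Real.rpow_pos_of_pos (by linarith) _
    by_contra hneg
    have : N * (t0 + 1) ^ (-m) < 0 := mul_neg_of_neg_of_pos (not_le.1 hneg) h2
    linarith
  refine ⟨hint, ?_, ?_⟩
  · intro t ht
    have ht' : t0 < t := ht
    obtain ⟨t', h1, h2⟩ := exists_between ht'
    refine ContinuousAt.continuousWithinAt ?_
    refine continuousAt_of_dominated (bound := fun τ => N * (t' + τ) ^ (-m)) ?_ ?_ ?_ ?_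
    · filter_upwards [Ioi_mem_nhds h2] with s hs
      have hs' : t' < s := hs
      exact hmeas s (by show t0 < s; linarith)
    · filter_upwards [Ioi_mem_nhds h2] with s hs
      have hs' : t' < s := hs
      filter_upwards [ae_restrict_mem measurableSet_Ioi] with τ hτ
      have hτ' : (0 : ℝ) < τ := hτ
      refine (hbd s (by show t0 < s; linarith) τ hτ).trans ?_
      refine mul_le_mul_of_nonneg_left ?_ hN0
      exact Real.rpow_le_rpow_of_nonpos (by linarith) (by linarith) (by linarith)
    · exact ((pow_int t' m (ht0.trans h1) hm).1).const_mul N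
    · filter_upwards [ae_restrict_mem measurableSet_Ioi] with τ hτ
      have hτ' : (0 : ℝ) < τ := hτ
      have hft : ContinuousAt f (t + τ) := hf.continuousAt (Ioi_mem_nhds (by linarith))
      have h3 : ContinuousAt (fun s => f (s + τ)) t := by
        have h4 : ContinuousAt (fun s : ℝ => s + τ) t := by fun_prop
        exact ContinuousAt.comp (f := fun s : ℝ => s + τ) (g := f) hft h4
      exact (T τ).continuous.continuousAt.comp h3
  · intro t ht
    have hb := ((pow_int t m (ht0.trans ht) hm).1).const_mul N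
    have h1 := norm_integral_le_of_norm_le (f := fun τ => T τ (f (t + τ))) hb (by
      filter_upwards [ae_restrict_mem measurableSet_Ioi] with τ hτ
      exact hbd t ht τ hτ)
    refine h1.trans (le_of_eq ?_)
    rw [integral_const_mul, (pow_int t m (ht0.trans ht) hm).2]
    ring

end

end Pool.Agent.Helper70BE01Lia
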