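import Pool.Agent.Helper91_BE01.ABS
import Pool.Agent.Helper26_BE01.Apx
import Pool.Agent.Helper59_BE01.Asm
import Pool.Agent.Helper17_BE01.Bas
import Pool.Agent.Helper90_BE01.Ddb
import Pool.Agent.Helper65_BE01.Der
import Pool.Agent.Helper87_BE01.Eng
import Pool.Agent.Helper99_BE01.Eva
import Pool.Agent.Helper87_BE01.Gsz
import Pool.Agent.Helper48_BE01.Ply
import Pool.Agent.Helper48_BE01.Prd
import Pool.Agent.Helper94_BE01.Prm
import Pool.Agent.Helper19_BE01.Res
import Pool.Agent.Helper27_BE01.Stp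
import Pool.Agent.Helper59_BE01.Trj
import Pool.Agent.Helper33_BE01.Trp
import Pool.Agent.Helper72_BE01.Alg
import Pool.Agent.Helper69_BE01.Chn
import Pool.Agent.Helper82_BE01.DIA
import Pool.Agent.Helper94_BE01.Dns
import Pool.Agent.Helper51_BE01.Eib
import Pool.Agent.Helper91_BE01.EMB
import Pool.Agent.Helper69_BE01.Fre
import Pool.Agent.Helper72_BE01.Hsc
import Pool.Agent.Helper94_BE01.Inc
import Pool.Agent.Helper91_BE01.LVL
import Pool.Agent.Helper51_BE01.Sob
import Pool.Agent.Helper82_BE01.SPC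
import Pool.Agent.Helper47_BE01.Sta
import Pool.Agent.Helper47_BE01.Stl
import Pool.Agent.Helper71_BE01.Lib
import Pool.Agent.Helper43_BE01.Lic
import Pool.Agent.Helper26_BE01.Lid
import Pool.Agent.Helper13_BE01.Dif
import Pool.Agent.Helper43_BE01.Fix
import Pool.Agent.Helper40_BE01.NLP
import Pool.Agent.Helper11_BE01.Pow
import Pool.Agent.Helper70_BE01.Lia
import Pool.Agent.Helper70_BE01.Fnl2

/-!
# Squad BE01 (MP_be01ff_an): all modules of the first theorem together
-/

namespace Pool.Agent.Helper70BE01All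

open Pool.Agent Pool.Agent.BE01
open Set Filter Topology MeasureTheory
open scoped InnerProductSpace ENNReal

noncomputable section

theorem lia : LiaStmt := Helper70BE01Lia.lia

theorem lib : LibStmt := BE01.H71.lib lia

theorem lic : LicStmt := BE01.H43.lic lia lib

theorem lid : LidStmt := Helper26_BE01.lid lia lib lic

theorem nlp : NlpStmt := BE01.H40.nlp lia lid BE01.H11.pow_ BE01.H13.dif BE01.H43.fix

theorem ply : PlyStmt := BE01.H48.ply BE01.H65.der BE01.H94.prm

theorem stp : StpStmt := Helper27_BE01.stp BE01.H48.prd BE01.H94.prm BE01.H65.der ply BE01.H19.res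

theorem bas : BasStmt := BE01.H17.bas BE01.H48.prd BE01.H94.prm

theorem apx : ApxStmt := Helper26_BE01.apx bas stp

theorem asm : AsmStmt := BE01.H59.asm apx BE01.H59.trj (BE01.H33.trp BE01.H65.der ply) BE01.H65.der
  BE01.H94.prm BE01.H99.eva ply (BE01.H90.ddb ply BE01.H99.eva) BE01.H87.gsz_ BE01.H87.eng

theorem abs : AbsStmt := BE01.H91.abs lia lib lic nlp asm

theorem scl : Helper70BE01Scl.SclStmt := Helper70BE01Scl.scl abs

theorem emb : EmbStmt := BE01.H91.emb BE01.H51.sob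

theorem sta : StaStmt := BE01.H47.sta (BE01.H91.lvl BE01.H69.chn) BE01.H47.stl

theorem spc : SpcStmt := Helper82_BE01.spc BE01.H51.eib Helper82_BE01.dia

theorem wvc2 : Helper70BE01Wvc.Wvc2Stmt := Helper70BE01Wvc.wvc2 emb sta BE01.H94.dns BE01.H94.inc
  BE01.H72.alg BE01.H72.hsc spc

theorem fnl2 : Helper70BE01Fnl2.Fnl2Stmt := Helper70BE01Fnl2.fnl2 wvc2 BE01.H69.fre scl

/-- Every eigenfunction is bounded. -/
theorem eig_bdd (d : ℕ) (Ω : Set (En d)) (hd : d = 2 ∨ d = 3) (hΩ : Dom Ω) (l : ℝ)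
    (φ : Lp ℝ 2 (mu Ω)) (hE : IsEig Ω l φ) : MemLp φ ∞ (mu Ω) := by
  obtain ⟨X, iX1, iX2, iX3, A, W, Z, hle, hconv, hmul, hone, hcomp, hH10, hZ, hZψ, hEigS⟩ :=
    wvc2 d Ω hd hΩ
  have hφS : φ = l • W.S φ := (hEigS l φ).1 hE
  have hx : A.e (l • W.SX φ) = φ := by
    rw [map_smul, W.e_SX]
    exact hφS.symm
  have h1 := hle (l • W.SX φ)
  rw [hx] at h1
  refine memLp_top_of_bound (Lp.aestronglyMeasurable φ) ‖l • W.SX φ‖ ?_
  filter_upwards [h1] with z hz
  rw [Real.norm_eq_abs]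
  exact hz

end

end Pool.Agent.Helper70BE01All
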