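import Pool.Agent.BE01.DefsC
import Pool.Agent.Helper70_BE01.Fun

/-!
# Squad BE01 (MP_be01ff_an): from `Lp` to functions
-/

namespace Pool.Agent.Helper70BE01Conv

open Pool.Agent
open Set Filter Topology MeasureTheory
open scoped InnerProductSpace ENNReal

noncomputable section

variable {d : ℕ} {Ω : Set (BE01.En d)}

theorem nrm_of (f : Lp ℝ 2 (BE01.mu Ω)) {g : BE01.En d → ℝ} (h : f =ᵐ[BE01.mu Ω] g) :
    BE01F.nrm Ω g = ENNReal.ofReal ‖f‖ := by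
  have h1 : BE01F.nrm Ω g = eLpNorm f 2 (BE01.mu Ω) := (eLpNorm_congr_ae h).symm
  rw [h1, Lp.norm_def, ENNReal.ofReal_toReal (Lp.eLpNorm_ne_top f)]

theorem nrmv_of (f : Lp (BE01.En d) 2 (BE01.mu Ω)) {g : BE01.En d → BE01.En d}
    (h : f =ᵐ[BE01.mu Ω] g) : BE01F.nrmv Ω g = ENNReal.ofReal ‖f‖ := by
  have h1 : BE01F.nrmv Ω g = eLpNorm f 2 (BE01.mu Ω) := (eLpNorm_congr_ae h).symm
  rw [h1, Lp.norm_def, ENNReal.ofReal_toReal (Lp.eLpNorm_ne_top f)]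

theorem h10_of {u : Lp ℝ 2 (BE01.mu Ω)} {G : Lp (BE01.En d) 2 (BE01.mu Ω)}
    (h : (u, G) ∈ BE01.H10 Ω) : BE01F.H10 Ω u G := by
  refine ⟨Lp.memLp u, Lp.memLp G, fun ε hε => ?_⟩
  obtain ⟨P, ⟨ψ, hψ, h1, h2⟩, hP⟩ := EMetric.mem_closure_iff.1 h ε hε
  have hP' : edist u P.1 < ε ∧ edist G P.2 < ε := by
    rw [Prod.edist_eq, max_lt_iff] at hP
    exact hP
  refine ⟨ψ, hψ, ?_, ?_⟩
  · refine lt_of_eq_of_lt ?_ hP'.1
    rw [Lp.edist_def]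
    refine eLpNorm_congr_ae ?_
    filter_upwards [h1] with x hx
    simp only [Pi.sub_apply]
    rw [hx]
  · refine lt_of_eq_of_lt ?_ hP'.2
    rw [Lp.edist_def]
    refine eLpNorm_congr_ae ?_
    filter_upwards [h2] with x hx
    simp only [Pi.sub_apply]
    rw [hx]

theorem tst_memLp {ψ : BE01.En d → ℝ} (h : BE01.Tst Ω ψ) : MemLp ψ 2 (BE01.mu Ω) :=
  (h.1.continuous.memLp_of_hasCompactSupport (p := 2) (μ := volume) h.2.1).restrict Ω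

theorem grad_memLp {ψ : BE01.En d → ℝ} (h : BE01.Tst Ω ψ) :
    MemLp (gradient ψ) 2 (BE01.mu Ω) := by
  have h1 : Continuous (fderiv ℝ ψ) := h.1.continuous_fderiv (by simp)
  have h3 : HasCompactSupport (fderiv ℝ ψ) := h.2.1.fderiv ℝ
  have h2 : gradient ψ =
    fun x => (InnerProductSpace.toDual ℝ (BE01.En d)).symm (fderiv ℝ ψ x) := rfl
  have hc : Continuous (gradient ψ) := by
    rw [h2]
    exact (InnerProductSpace.toDual ℝ (BE01.En d)).symm.continuous.comp h1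
  have hs : HasCompactSupport (gradient ψ) := by
    rw [h2]
    exact h3.comp_left (g := fun y => (InnerProductSpace.toDual ℝ (BE01.En d)).symm y) (by simp)
  exact (hc.memLp_of_hasCompactSupport (p := 2) (μ := volume) hs).restrict Ω

theorem h10_to {u : Lp ℝ 2 (BE01.mu Ω)} {G : Lp (BE01.En d) 2 (BE01.mu Ω)}
    {f : BE01.En d → ℝ} {F : BE01.En d → BE01.En d} (hu : u =ᵐ[BE01.mu Ω] f)
    (hG : G =ᵐ[BE01.mu Ω] F) (h : BE01F.H10 Ω f F) : (u, G) ∈ BE01.H10 Ω := by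
  refine EMetric.mem_closure_iff.2 fun ε hε => ?_
  obtain ⟨ψ, hψ, h1, h2⟩ := h.2.2 ε hε
  have e1 := (tst_memLp hψ).coeFn_toLp
  have e2 := (grad_memLp hψ).coeFn_toLp
  refine ⟨((tst_memLp hψ).toLp ψ, (grad_memLp hψ).toLp (gradient ψ)), ⟨ψ, hψ, e1, e2⟩, ?_⟩
  rw [Prod.edist_eq, max_lt_iff]
  constructor
  · refine lt_of_eq_of_lt ?_ h1
    rw [Lp.edist_def]
    refine eLpNorm_congr_ae ?_
    filter_upwards [e1, hu] with x hx hx2
    simp only [Pi.sub_apply]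
    rw [hx, hx2]
  · refine lt_of_eq_of_lt ?_ h2
    rw [Lp.edist_def]
    refine eLpNorm_congr_ae ?_
    filter_upwards [e2, hG] with x hx hx2
    simp only [Pi.sub_apply]
    rw [hx, hx2]

theorem der_of {u : ℝ → Lp ℝ 2 (BE01.mu Ω)} {v : Lp ℝ 2 (BE01.mu Ω)} {t : ℝ}
    (h : HasDerivAt u v t) : BE01F.Der Ω (fun t => u t) v t := by
  have h1 := hasDerivAt_iff_tendsto_slope.1 h
  have h2 : Tendsto (fun s => ‖slope u t s - v‖) (𝓝[≠] t) (𝓝 0) :=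
    tendsto_iff_norm_sub_tendsto_zero.1 h1
  have h3 : Tendsto (fun s => ENNReal.ofReal ‖slope u t s - v‖) (𝓝[≠] t) (𝓝 0) := by
    have := ENNReal.tendsto_ofReal h2
    rw [ENNReal.ofReal_zero] at this
    exact this
  have h4 : Tendsto (fun s => ENNReal.ofReal ‖slope u t s - v‖) (𝓝[Ici 0 \ {t}] t) (𝓝 0) :=
    h3.mono_left (nhdsWithin_mono t (fun s hs => hs.2))
  refine h4.congr (fun s => ?_)
  rw [← nrm_of (slope u t s - v)]
  filter_upwards [Lp.coeFn_sub (slope u t s) v, Lp.coeFn_smul (s - t)⁻¹ (u s - u t),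
    Lp.coeFn_sub (u s) (u t)] with x h5 h6 h7
  rw [h5]
  simp only [Pi.sub_apply]
  have h8 : slope u t s = (s - t)⁻¹ • (u s - u t) := by
    rw [slope_def_module]
  rw [h8, h6]
  simp only [Pi.smul_apply, smul_eq_mul]
  rw [h7]
  simp only [Pi.sub_apply]

theorem ct_of {w : ℝ → Lp ℝ 2 (BE01.mu Ω)} {t : ℝ} (h : ContinuousWithinAt w (Ici 0) t) :
    BE01F.Ct Ω (fun t => w t) t := by
  have h2 : Tendsto (fun s => ‖w s - w t‖) (𝓝[Ici 0] t) (𝓝 0) :=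
    tendsto_iff_norm_sub_tendsto_zero.1 h
  have h3 : Tendsto (fun s => ENNReal.ofReal ‖w s - w t‖) (𝓝[Ici 0] t) (𝓝 0) := by
    have := ENNReal.tendsto_ofReal h2
    rw [ENNReal.ofReal_zero] at this
    exact this
  refine h3.congr (fun s => ?_)
  rw [← nrm_of (w s - w t)]
  filter_upwards [Lp.coeFn_sub (w s) (w t)] with x h5
  rw [h5]
  simp only [Pi.sub_apply]

theorem ctv_of {w : ℝ → Lp (BE01.En d) 2 (BE01.mu Ω)} {t : ℝ}
    (h : ContinuousWithinAt w (Ici 0) t) : BE01F.Ctv Ω (fun t => w t) t := by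
  have h2 : Tendsto (fun s => ‖w s - w t‖) (𝓝[Ici 0] t) (𝓝 0) :=
    tendsto_iff_norm_sub_tendsto_zero.1 h
  have h3 : Tendsto (fun s => ENNReal.ofReal ‖w s - w t‖) (𝓝[Ici 0] t) (𝓝 0) := by
    have := ENNReal.tendsto_ofReal h2
    rw [ENNReal.ofReal_zero] at this
    exact this
  refine h3.congr (fun s => ?_)
  rw [← nrmv_of (w s - w t)]
  filter_upwards [Lp.coeFn_sub (w s) (w t)] with x h5
  rw [h5]
  simp only [Pi.sub_apply]

theorem sol_of {a α : ℝ} {u v w : ℝ → Lp ℝ 2 (BE01.mu Ω)}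
    {G : ℝ → Lp (BE01.En d) 2 (BE01.mu Ω)} (h : BE01.IsSol Ω a α u v w G) :
    BE01F.Sol Ω a α (fun t => u t) (fun t => v t) (fun t => w t) (fun t => G t) where
  dom := fun t ht => h10_of (h.dom t ht)
  vdom := fun t ht => by
    obtain ⟨F, hF⟩ := h.vdom t ht
    exact ⟨F, h10_of hF⟩
  wdom := fun t _ => Lp.memLp (w t)
  du := fun t ht => der_of (h.du t ht)
  dv := fun t ht => der_of (h.dv t ht)
  w_cont := fun t ht => ct_of (h.w_cont t ht)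
  G_cont := fun t ht => ctv_of (h.G_cont t ht)
  v_bdd := fun t ht => h.v_bdd t ht
  eq := fun t ht ψ hψ => h.eq t ht ψ hψ

theorem radial_of {a α : ℝ} (h : ∃ (u v w : ℝ → Lp ℝ 2 (BE01.mu Ω))
    (G : ℝ → Lp (BE01.En d) 2 (BE01.mu Ω)), BE01.IsSol Ω a α u v w G ∧
    (∀ t, 0 ≤ t → ∃ f : ℝ → ℝ, u t =ᵐ[BE01.mu Ω] fun x => f ‖x‖) ∧
    ∃ c C : ℝ, 0 < c ∧ ∀ t, 0 ≤ t → c * (1 + t) ^ (-(2 / α)) ≤ BE01.energy Ω v G t ∧
      BE01.energy Ω v G t ≤ C * (1 + t) ^ (-(2 / α))) : BE01F.RadialRate Ω a α := by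
  obtain ⟨u, v, w, G, hsol, hrad, c, C, hc, hE⟩ := h
  refine ⟨_, _, _, _, sol_of hsol, ?_, c, C, hc, ?_, hE⟩
  · intro t ht
    obtain ⟨f, hf⟩ := hrad t ht
    refine ⟨f, ?_⟩
    have h2 : ∀ᵐ x ∂(BE01.mu Ω), u t x - f ‖x‖ = 0 := by
      filter_upwards [hf] with x hx
      rw [hx, sub_self]
    exact h2
  have h1 := (hE 0 le_rfl).1.trans (hE 0 le_rfl).2
  rw [add_zero, Real.one_rpow, mul_one, mul_one] at h1
  exact h1

theorem sharp_of {a α : ℝ} (h : ∃ (u v w : ℝ → Lp ℝ 2 (BE01.mu Ω))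
    (G : ℝ → Lp (BE01.En d) 2 (BE01.mu Ω)), BE01.IsSol Ω a α u v w G ∧
    ∃ c C : ℝ, 0 < c ∧ ∀ t, 0 ≤ t → c * (1 + t) ^ (-(2 / α)) ≤ BE01.energy Ω v G t ∧
      BE01.energy Ω v G t ≤ C * (1 + t) ^ (-(2 / α))) : BE01F.SharpRate Ω a α := by
  obtain ⟨u, v, w, G, hsol, c, C, hc, hE⟩ := h
  refine ⟨_, _, _, _, sol_of hsol, c, C, hc, ?_, hE⟩
  have h1 := (hE 0 le_rfl).1.trans (hE 0 le_rfl).2
  rw [add_zero, Real.one_rpow, mul_one, mul_one] at h1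
  exact h1

/-- A function eigenfunction gives an eigenfunction in `Lp`. -/
theorem eig_to {l : ℝ} {f : BE01.En d → ℝ} (h : BE01F.Eig Ω l f) {u : Lp ℝ 2 (BE01.mu Ω)}
    (hu : u =ᵐ[BE01.mu Ω] f) : BE01.IsEig Ω l u := by
  obtain ⟨F, hF, heq⟩ := h
  have hF2 : MemLp F 2 (BE01.mu Ω) := hF.2.1
  have e2 := hF2.coeFn_toLp
  refine ⟨hF2.toLp F, h10_to hu e2 hF, fun ψ hψ => ?_⟩
  have h1 : ∫ x, ⟪(hF2.toLp F) x, gradient ψ x⟫_ℝ ∂(BE01.mu Ω) =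
      ∫ x in Ω, ⟪F x, gradient ψ x⟫_ℝ := by
    refine integral_congr_ae ?_
    filter_upwards [e2] with x hx
    rw [hx]
  have h2 : ∫ x, u x * ψ x ∂(BE01.mu Ω) = ∫ x in Ω, f x * ψ x := by
    refine integral_congr_ae ?_
    filter_upwards [hu] with x hx
    rw [hx]
  exact h1.trans ((heq ψ hψ).trans (congrArg (fun r => l * r) h2.symm))

theorem eig_of {l : ℝ} {u : Lp ℝ 2 (BE01.mu Ω)} (h : BE01.IsEig Ω l u) :
    BE01F.Eig Ω l (fun x => u x) := by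
  obtain ⟨G, hG, heq⟩ := h
  exact ⟨G, h10_of hG, heq⟩

end

end Pool.Agent.Helper70BE01Conv
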