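import Pool.Agent.BE01.StmtsC

/-!
# Squad BE01 (MP_be01ff_an): module FNL, the theorem
-/

namespace Pool.Agent.Helper70BE01Fnl

open Pool.Agent.BE01
open Set Filter Topology MeasureTheory
open scoped InnerProductSpace ENNReal

noncomputable section

variable {d : ℕ} {Ω : Set (En d)}

theorem tst_memLp {ψ : En d → ℝ} (h : Tst Ω ψ) : MemLp ψ 2 (mu Ω) :=
  (h.1.continuous.memLp_of_hasCompactSupport (p := 2) (μ := volume) h.2.1).restrict Ω

theorem grad_cont {ψ : En d → ℝ} (h : Tst Ω ψ) : Continuous (gradient ψ) := by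
  have h1 : Continuous (fderiv ℝ ψ) := h.1.continuous_fderiv (by simp)
  have h2 : gradient ψ = fun x => (InnerProductSpace.toDual ℝ (En d)).symm (fderiv ℝ ψ x) := rfl
  rw [h2]
  exact (InnerProductSpace.toDual ℝ (En d)).symm.continuous.comp h1

theorem grad_supp {ψ : En d → ℝ} (h : Tst Ω ψ) : HasCompactSupport (gradient ψ) := by
  have h1 : HasCompactSupport (fderiv ℝ ψ) := h.2.1.fderiv ℝ
  have h2 : gradient ψ = fun x => (InnerProductSpace.toDual ℝ (En d)).symm (fderiv ℝ ψ x) := rfl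
  rw [h2]
  exact h1.comp_left (g := fun y => (InnerProductSpace.toDual ℝ (En d)).symm y) (by simp)

theorem grad_memLp {ψ : En d → ℝ} (h : Tst Ω ψ) : MemLp (gradient ψ) 2 (mu Ω) :=
  ((grad_cont h).memLp_of_hasCompactSupport (p := 2) (μ := volume) (grad_supp h)).restrict Ω

theorem int_mul (f : Lp ℝ 2 (mu Ω)) {ψ : En d → ℝ} (h : Tst Ω ψ) :
    Integrable (fun z => f z * ψ z) (mu Ω) :=
  (Lp.memLp f).integrable_mul (tst_memLp h)

theorem int_inner (f : Lp (En d) 2 (mu Ω)) {ψ : En d → ℝ} (h : Tst Ω ψ) :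
    Integrable (fun z => ⟪f z, gradient ψ z⟫_ℝ) (mu Ω) := by
  have h1 := L2.integrable_inner (𝕜 := ℝ) f ((grad_memLp h).toLp (gradient ψ))
  refine h1.congr ?_
  filter_upwards [(grad_memLp h).coeFn_toLp] with z hz
  rw [hz]

theorem energy_eq (v : ℝ → Lp ℝ 2 (mu Ω)) (G : ℝ → Lp (En d) 2 (mu Ω)) (t : ℝ) :
    energy Ω v G t = ‖v t‖ ^ 2 + ‖G t‖ ^ 2 := by
  unfold energy
  have h1 : ‖v t‖ ^ 2 = ∫ x, v t x ^ 2 ∂(mu Ω) := by
    rw [← real_inner_self_eq_norm_sq, L2.inner_def]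
    refine integral_congr_ae (Eventually.of_forall fun x => ?_)
    simp only [real_inner_self_eq_norm_sq, Real.norm_eq_abs, sq_abs]
  have h2 : ‖G t‖ ^ 2 = ∫ x, ‖G t x‖ ^ 2 ∂(mu Ω) := by
    rw [← real_inner_self_eq_norm_sq, L2.inner_def]
    refine integral_congr_ae (Eventually.of_forall fun x => ?_)
    simp only [real_inner_self_eq_norm_sq]
  have i1 : Integrable (fun x => v t x ^ 2) (mu Ω) := (Lp.memLp (v t)).integrable_sq
  have i2 : Integrable (fun x => ‖G t x‖ ^ 2) (mu Ω) := (Lp.memLp (G t)).norm.integrable_sq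
  rw [h1, h2, ← integral_add i1 i2]

theorem int3 {μ : Measure (En d)} {f g k : En d → ℝ} (hf : Integrable f μ) (hg : Integrable g μ)
    (hk : Integrable k μ) : ∫ z, f z + g z + k z ∂μ = ∫ z, f z ∂μ + ∫ z, g z ∂μ + ∫ z, k z ∂μ := by
  rw [integral_add (f := fun z => f z + g z) (hf.add hg) hk, integral_add hf hg]

theorem fnl (WVC : WvcStmt) (FRE : FreStmt) (ABS : AbsStmt) : FnlStmt := by
  intro d Ω p a l φ hd hDom hp ha hφ hEig hsimple
  obtain ⟨X, iX1, iX2, iX3, A, W, Z, hle, hmul, hone, hcomp, hH10, hZ, hZψ, hEigS⟩ := WVC d Ω hd hDom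
  have hφS : φ = l • W.S φ := (hEigS l φ).1 hEig
  have hsymm : ∀ h k, ⟪W.S h, k⟫_ℝ = ⟪h, W.S k⟫_ℝ := by
    intro h k
    rw [← W.prp.RR h, ← W.prp.RR k, W.prp.R_symm, W.prp.R_symm]
  have hφn : 0 < ‖φ‖ := norm_pos_iff.2 hφ
  have hl : 0 < l := by
    have h1 : ‖φ‖ ^ 2 = l * ‖Z φ‖ ^ 2 := by
      rw [hZ, ← real_inner_smul_right, ← hφS, real_inner_self_eq_norm_sq]
    have h2 : 0 < l * ‖Z φ‖ ^ 2 := by rw [← h1]; positivity
    by_contra hneg
    have : l * ‖Z φ‖ ^ 2 ≤ 0 := mul_nonpos_of_nonpos_of_nonneg (not_lt.1 hneg) (sq_nonneg _)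
    linarith
  set ω : ℝ := Real.sqrt l with hωdef
  have hω : 0 < ω := Real.sqrt_pos.2 hl
  have hω2 : ω ^ 2 = l := Real.sq_sqrt hl.le
  have hSφ : (ω ^ 2) • W.S φ = φ := by rw [hω2]; exact hφS.symm
  have hex : A.e (W.SX ((ω ^ 2) • φ)) = φ := by
    rw [W.e_SX, map_smul, hSφ]
  set x0 := W.SX ((ω ^ 2) • φ) with hx0
  have hpow : ∀ (x : X) (n : ℕ), A.e (x ^ n) =ᵐ[mu Ω] fun z => (A.e x z) ^ n := by
    intro x n
    induction n with
    | zero =>
      rw [pow_zero]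
      filter_upwards [hone] with z hz
      rw [hz, pow_zero]
    | succ n ih =>
      rw [pow_succ]
      filter_upwards [ih, hmul (x ^ n) x] with z h1 h2
      rw [h2, h1, pow_succ]
  have hγ : 0 < ⟪A.e (x0 ^ (2 * p + 1)), φ⟫_ℝ := by
    rw [L2.inner_def]
    have h1 : ∀ᵐ z ∂(mu Ω), ⟪A.e (x0 ^ (2 * p + 1)) z, φ z⟫_ℝ = φ z ^ (2 * (p + 1)) := by
      filter_upwards [hpow x0 (2 * p + 1)] with z hz
      rw [hz, hex]
      simp only [RCLike.inner_apply, conj_trivial]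
      ring
    have hnn : 0 ≤ᵐ[mu Ω] fun z => ⟪A.e (x0 ^ (2 * p + 1)) z, φ z⟫_ℝ := by
      filter_upwards [h1] with z hz
      rw [hz]
      simp only [Pi.zero_apply]
      rw [pow_mul]
      positivity
    have hint := L2.integrable_inner (𝕜 := ℝ) (A.e (x0 ^ (2 * p + 1))) φ
    refine lt_of_le_of_ne (integral_nonneg_of_ae hnn) (fun h0 => hφ ?_)
    have h2 := (integral_eq_zero_iff_of_nonneg_ae hnn hint).1 h0.symm
    rw [Lp.eq_zero_iff_ae_eq_zero]
    filter_upwards [h1, h2] with z hz hz2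
    rw [hz] at hz2
    simp only [Pi.zero_apply] at hz2 ⊢
    exact pow_eq_zero_iff (by omega) |>.1 hz2
  set kp := kap p ω ‖x0‖ (⟪A.e (x0 ^ (2 * p + 1)), φ⟫_ℝ / ⟪φ, φ⟫_ℝ) with hkp
  set K : ℕ := max 1 ⌈kp⌉₊ with hK
  have hK1 : 1 ≤ K := le_max_left _ _
  have hKk : kp ≤ (K : ℝ) := (Nat.le_ceil kp).trans (by exact_mod_cast le_max_right _ _)
  refine ⟨1 + 2 * p * K, fun hnr => ?_⟩
  have hslv : Slv W.S ω φ (1 + 2 * p * K) := by
    refine ⟨?_, ?_⟩
    · rw [hω2]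
      refine (FRE _ W.S l hcomp hsymm).2 φ hφ hφS (fun u hu => ?_)
      exact hsimple u ((hEigS l u).2 hu)
    · intro n hn h3 hM
      rw [hω2]
      refine (FRE _ W.S ((n : ℝ) ^ 2 * l) hcomp hsymm).1 (fun u hu => ?_)
      exact hnr n hn h3 hM u ((hEigS _ u).2 hu)
  obtain ⟨t0, c, C, u, x, k, w, h, ht0, hc, hwc, hhc, H⟩ :=
    ABS X (Lp ℝ 4 (mu Ω)) (Lp ℝ 2 (mu Ω)) A W p a ω φ K hp ha hω hφ hSφ hγ hK1 hKk hslv
  have hs : ∀ t : ℝ, 0 ≤ t → t0 < t + (t0 + 1) := fun t ht => by linarith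
  refine ⟨fun t => u (t + (t0 + 1)), fun t => A.e (x (t + (t0 + 1))), fun t => w (t + (t0 + 1)),
    fun t => Z (h (t + (t0 + 1))), ?_, ?_⟩
  · refine ⟨?_, ?_, ?_, ?_, ?_, ?_, ?_, ?_⟩
    · intro t ht
      obtain ⟨-, -, -, hu, -, -, -⟩ := H _ (hs t ht)
      show (u (t + (t0 + 1)), Z (h (t + (t0 + 1)))) ∈ H10 Ω
      rw [hu]
      exact hH10 _
    · intro t ht
      obtain ⟨-, -, hx, -, -, -, -⟩ := H _ (hs t ht)
      refine ⟨Z (k (t + (t0 + 1))), ?_⟩
      show (A.e (x (t + (t0 + 1))), Z (k (t + (t0 + 1)))) ∈ H10 Ω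
      rw [hx, W.e_SX]
      exact hH10 _
    · intro t ht
      obtain ⟨hu, -, -, -, -, -, -⟩ := H _ (hs t ht)
      exact hu.comp_add_const t (t0 + 1)
    · intro t ht
      obtain ⟨-, hv, -, -, -, -, -⟩ := H _ (hs t ht)
      exact hv.comp_add_const t (t0 + 1)
    · refine Z.continuous.comp_continuousOn (hhc.comp (by fun_prop) ?_)
      intro t ht
      exact hs t ht
    · refine hwc.comp (by fun_prop) ?_
      intro t ht
      exact hs t ht
    · intro t ht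
      refine ⟨‖x (t + (t0 + 1))‖, ?_⟩
      exact hle _
    · intro t ht ψ hψ
      obtain ⟨-, -, -, -, heq, -, -⟩ := H _ (hs t ht)
      set s := t + (t0 + 1) with hsdef
      have h1 : ∀ᵐ z ∂(mu Ω), a * |A.e (x s) z| ^ ((2 * p : ℕ) : ℝ) * A.e (x s) z * ψ z =
          a * (A.e (x s ^ (2 * p + 1)) z * ψ z) := by
        filter_upwards [hpow (x s) (2 * p + 1)] with z hz
        rw [hz, Real.rpow_natCast, pow_mul, sq_abs, ← pow_mul]
        ring
      have h2 : ∀ᵐ z ∂(mu Ω), w s z * ψ z + h s z * ψ z + a * (A.e (x s ^ (2 * p + 1)) z * ψ z) =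
          0 := by
        have h3 : (w s + h s + a • A.e (x s ^ (2 * p + 1)) : Lp ℝ 2 (mu Ω)) =ᵐ[mu Ω] 0 := by
          rw [heq]
          exact Lp.coeFn_zero _ _ _
        filter_upwards [h3, Lp.coeFn_add (w s + h s) (a • A.e (x s ^ (2 * p + 1))),
          Lp.coeFn_add (w s) (h s), Lp.coeFn_smul a (A.e (x s ^ (2 * p + 1)))] with z h4 h5 h6 h7
        rw [h5] at h4
        simp only [Pi.add_apply, Pi.zero_apply] at h4
        rw [h6, h7] at h4
        simp only [Pi.add_apply, Pi.smul_apply, smul_eq_mul] at h4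
        have h8 := congrArg (fun r => r * ψ z) h4
        simp only [zero_mul] at h8
        linarith
      have i1 := int_mul (w s) hψ
      have i2 := int_mul (h s) hψ
      have i3 := int_inner (Z (h s)) hψ
      have i4 := (int_mul (A.e (x s ^ (2 * p + 1))) hψ).const_mul a
      have e1 : ∫ z, w s z * ψ z + ⟪Z (h s) z, gradient ψ z⟫_ℝ +
          a * |A.e (x s) z| ^ ((2 * p : ℕ) : ℝ) * A.e (x s) z * ψ z ∂(mu Ω) =
          ∫ z, (w s z * ψ z + ⟪Z (h s) z, gradient ψ z⟫_ℝ) +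
            a * (A.e (x s ^ (2 * p + 1)) z * ψ z) ∂(mu Ω) := by
        refine integral_congr_ae ?_
        filter_upwards [h1] with z hz
        rw [hz]
      have e2 : ∫ z, (w s z * ψ z + h s z * ψ z) + a * (A.e (x s ^ (2 * p + 1)) z * ψ z) ∂(mu Ω) =
          0 := by
        rw [integral_congr_ae (g := fun _ => (0 : ℝ)) h2]
        simp
      rw [int3 i1 i2 i4] at e2
      show ∫ z, w s z * ψ z + ⟪Z (h s) z, gradient ψ z⟫_ℝ +
          a * |A.e (x s) z| ^ ((2 * p : ℕ) : ℝ) * A.e (x s) z * ψ z ∂(mu Ω) = 0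
      rw [e1, int3 i1 i3 i4, hZψ (h s) ψ hψ]
      exact e2
  · have hexp : (-(2 / ((2 * p : ℕ) : ℝ))) = -(1 / (p : ℝ)) := by
      have : (p : ℝ) ≠ 0 := by positivity
      push_cast
      field_simp
    have hC : 0 < C := by
      obtain ⟨-, -, -, -, -, h1, h2⟩ := H (t0 + 1) (by linarith)
      have h3 : 0 < (t0 + 1) ^ (-(1 / (p : ℝ))) := Real.rpow_pos_of_pos (by linarith) _
      have h4 : c * (t0 + 1) ^ (-(1 / (p : ℝ))) ≤ C * (t0 + 1) ^ (-(1 / (p : ℝ))) := h1.trans h2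
      have h5 := le_of_mul_le_mul_right h4 h3
      linarith
    refine ⟨c * (t0 + 1) ^ (-(1 / (p : ℝ))), C, mul_pos hc (Real.rpow_pos_of_pos (by linarith) _),
      fun t ht => ?_⟩
    obtain ⟨-, -, -, -, -, h1, h2⟩ := H _ (hs t ht)
    rw [hexp, energy_eq]
    show _ ≤ ‖A.e (x (t + (t0 + 1)))‖ ^ 2 + ‖Z (h (t + (t0 + 1)))‖ ^ 2 ∧
      ‖A.e (x (t + (t0 + 1)))‖ ^ 2 + ‖Z (h (t + (t0 + 1)))‖ ^ 2 ≤ _
    rw [hZ]
    have hneg : -(1 / (p : ℝ)) ≤ 0 := by
      have : 0 ≤ 1 / (p : ℝ) := by positivity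
      linarith
    constructor
    · refine le_trans ?_ h1
      rw [mul_assoc, ← Real.mul_rpow (by linarith) (by linarith)]
      refine mul_le_mul_of_nonneg_left ?_ hc.le
      refine Real.rpow_le_rpow_of_nonpos (by linarith) ?_ hneg
      nlinarith
    · refine h2.trans ?_
      refine mul_le_mul_of_nonneg_left ?_ hC.le
      exact Real.rpow_le_rpow_of_nonpos (by linarith) (by linarith) hneg

end

end Pool.Agent.Helper70BE01Fnl
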