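import Pool.Agent.BE01.StmtsS
import Pool.Agent.Helper70_BE01.Fnl

/-!
# Squad BE01 (MP_be01ff_an): module SHF, the theorem for spherical shells
-/

namespace Pool.Agent.Helper70BE01Shf

open Pool.Agent.BE01 Pool.Agent.Helper70BE01Fnl
open Set Filter Topology MeasureTheory
open scoped InnerProductSpace ENNReal

noncomputable section

variable {d : ℕ} {r0 r1 : ℝ}

theorem shell_open (d : ℕ) (r0 r1 : ℝ) : IsOpen (shell d r0 r1) :=
  (isOpen_lt continuous_const continuous_norm).inter (isOpen_lt continuous_norm continuous_const)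

instance shell_fin (d : ℕ) (r0 r1 : ℝ) : IsFiniteMeasure (mu (shell d r0 r1)) := by
  refine ⟨?_⟩
  unfold mu
  rw [Measure.restrict_apply_univ]
  refine Bornology.IsBounded.measure_lt_top ?_
  refine (Metric.isBounded_ball (x := (0 : En d)) (r := r1)).subset ?_
  intro x hx
  rw [Metric.mem_ball, dist_zero_right]
  exact hx.2

theorem pr_cont (h : r0 ≤ r1) : Continuous (pr (d := d) h) :=
  continuous_projIcc.comp continuous_norm

theorem pr_mp (h : r0 ≤ r1) :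
    MeasurePreserving (pr (d := d) h) (mu (shell d r0 r1)) (nu d h) :=
  ⟨(pr_cont h).measurable, rfl⟩

theorem mem_shell_ae (d : ℕ) (r0 r1 : ℝ) : ∀ᵐ x ∂(mu (shell d r0 r1)), x ∈ shell d r0 r1 :=
  ae_restrict_mem (shell_open d r0 r1).measurableSet

theorem pr_val (h : r0 ≤ r1) {x : En d} (hx : x ∈ shell d r0 r1) : (pr h x : ℝ) = ‖x‖ := by
  unfold pr
  rw [projIcc_of_mem h (⟨hx.1.le, hx.2.le⟩ : ‖x‖ ∈ Icc r0 r1)]

/-- The radial vector field. -/
def gv (h : r0 ≤ r1) (g : C(Ic r0 r1, ℝ)) (x : En d) : En d := g (pr h x) • (‖x‖⁻¹ • x)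

theorem unit_le (x : En d) : ‖‖x‖⁻¹ • x‖ ≤ 1 := by
  rw [norm_smul, norm_inv, norm_norm]
  rcases eq_or_ne ‖x‖ 0 with h0 | h0
  · rw [h0]; simp
  · rw [inv_mul_cancel₀ h0]

theorem gv_le (h : r0 ≤ r1) (g : C(Ic r0 r1, ℝ)) (x : En d) : ‖gv h g x‖ ≤ ‖g‖ := by
  unfold gv
  rw [norm_smul]
  calc ‖g (pr h x)‖ * ‖‖x‖⁻¹ • x‖ ≤ ‖g‖ * 1 :=
        mul_le_mul (g.norm_coe_le_norm _) (unit_le x) (norm_nonneg _) (norm_nonneg _)
    _ = ‖g‖ := mul_one _

theorem gv_meas (h : r0 ≤ r1) (g : C(Ic r0 r1, ℝ)) : Measurable (gv (d := d) h g) := by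
  unfold gv
  exact (g.continuous.comp (pr_cont h)).measurable.smul
    ((measurable_norm.inv).smul measurable_id)

theorem gv_memLp (h : r0 ≤ r1) (g : C(Ic r0 r1, ℝ)) :
    MemLp (gv (d := d) h g) 2 (mu (shell d r0 r1)) :=
  MemLp.of_bound (gv_meas h g).aestronglyMeasurable ‖g‖ (Eventually.of_forall (gv_le h g))

/-- The class of the radial vector field. -/
def JG (h : r0 ≤ r1) : C(Ic r0 r1, ℝ) →L[ℝ] Lp (En d) 2 (mu (shell d r0 r1)) :=
  LinearMap.mkContinuous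
    { toFun := fun g => (gv_memLp h g).toLp (gv h g)
      map_add' := by
        intro g g'
        rw [← MemLp.toLp_add (gv_memLp h g) (gv_memLp h g')]
        congr 1
        funext x
        simp only [gv, ContinuousMap.add_apply, add_smul, Pi.add_apply]
      map_smul' := by
        intro c g
        rw [RingHom.id_apply, ← MemLp.toLp_const_smul c (gv_memLp h g)]
        congr 1
        funext x
        simp only [gv, ContinuousMap.smul_apply, smul_eq_mul, Pi.smul_apply, smul_smul, mul_assoc] }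
    ((mu (shell d r0 r1)).real univ ^ ((2 : ℝ≥0∞).toReal⁻¹))
    (by
      intro g
      have h1 := Lp.norm_le_of_ae_bound (f := (gv_memLp (d := d) h g).toLp (gv h g))
        (norm_nonneg g) (by
          filter_upwards [(gv_memLp (d := d) h g).coeFn_toLp] with x hx
          rw [hx]
          exact gv_le h g x)
      exact h1)

theorem JG_ae (h : r0 ≤ r1) (g : C(Ic r0 r1, ℝ)) :
    JG (d := d) h g =ᵐ[mu (shell d r0 r1)] gv h g := (gv_memLp h g).coeFn_toLp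

/-- Composition with the radial coordinate. -/
def J (d : ℕ) (h : r0 ≤ r1) : Lp ℝ 2 (nu d h) →L[ℝ] Lp ℝ 2 (mu (shell d r0 r1)) :=
  (Lp.compMeasurePreservingₗᵢ ℝ (pr h) (pr_mp h)).toContinuousLinearMap

theorem J_ae (h : r0 ≤ r1) (k : Lp ℝ 2 (nu d h)) :
    J d h k =ᵐ[mu (shell d r0 r1)] fun x => k (pr h x) :=
  Lp.coeFn_compMeasurePreserving k (pr_mp h)

theorem J_norm (h : r0 ≤ r1) (k : Lp ℝ 2 (nu d h)) : ‖J d h k‖ = ‖k‖ :=
  Lp.norm_compMeasurePreserving k (pr_mp h)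

theorem ae_pr (h : r0 ≤ r1) {P : Ic r0 r1 → Prop} (hP : ∀ᵐ s ∂(nu d h), P s) :
    ∀ᵐ x ∂(mu (shell d r0 r1)), P (pr h x) :=
  (pr_mp h).quasiMeasurePreserving.ae hP

theorem J_ae' (h : r0 ≤ r1) {k : Lp ℝ 2 (nu d h)} {f : Ic r0 r1 → ℝ} (hk : k =ᵐ[nu d h] f) :
    J d h k =ᵐ[mu (shell d r0 r1)] fun x => f (pr h x) := by
  filter_upwards [J_ae h k, ae_pr h hk] with x h1 h2
  rw [h1, h2]

theorem primitive_eq {h : r0 ≤ r1} {D SX : Lp ℝ 2 (nu d h) →L[ℝ] C(Ic r0 r1, ℝ)} (hO : Opr D SX)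
    (k : Lp ℝ 2 (nu d h)) (r : ℝ) (hr : r ∈ Icc r0 r1) :
    ∫ s in r0..r, D k (projIcc r0 r1 h s) = ∫ s in r0..r, qq d s * flx k s := by
  apply intervalIntegral.integral_congr
  intro s hs
  rw [uIcc_of_le hr.1] at hs
  have hs' : s ∈ Icc r0 r1 := ⟨hs.1, hs.2.trans hr.2⟩
  simp only
  rw [projIcc_of_mem h hs', hO.D_eq]

theorem mem_H10 (RHT : RhtStmt) (hd : 1 ≤ d) (h0 : 0 < r0) (h01 : r0 < r1) {h : r0 ≤ r1}
    {D SX : Lp ℝ 2 (nu d h) →L[ℝ] C(Ic r0 r1, ℝ)} (hO : Opr D SX) (k v : Lp ℝ 2 (nu d h))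
    (hv : v =ᵐ[nu d h] fun r => SX k r) : (J d h v, JG h (D k)) ∈ H10 (shell d r0 r1) := by
  refine RHT d r0 r1 h (D k) hd h0 h01 ?_ _ _ ?_ (JG_ae h (D k))
  · rw [primitive_eq hO k r1 ⟨h, le_rfl⟩]
    exact hO.zero k
  · filter_upwards [J_ae' h hv, mem_shell_ae d r0 r1] with x h1 h2
    rw [h1, primitive_eq hO k ‖x‖ ⟨h2.1.le, h2.2.le⟩, hO.SX_eq, pr_val h h2]

theorem JG_norm (POL : PolStmt) (hd : 1 ≤ d) (h0 : 0 < r0) (h01 : r0 < r1) {h : r0 ≤ r1}
    {D SX : Lp ℝ 2 (nu d h) →L[ℝ] C(Ic r0 r1, ℝ)} (hO : Opr D SX) (k v : Lp ℝ 2 (nu d h))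
    (hv : v =ᵐ[nu d h] fun r => SX k r) :
    ‖JG (d := d) h (D k)‖ ^ 2 = ⟪k, v⟫_ℝ := by
  obtain ⟨hsg, hfin, -, -, hpol⟩ := POL d r0 r1 h hd h0 h01
  have h1 : ‖JG (d := d) h (D k)‖ ^ 2 = ∫ x, (D k (pr h x)) ^ 2 ∂(mu (shell d r0 r1)) := by
    rw [← real_inner_self_eq_norm_sq, L2.inner_def]
    refine integral_congr_ae ?_
    filter_upwards [JG_ae h (D k), mem_shell_ae d r0 r1] with x h1 h2
    rw [h1, real_inner_self_eq_norm_sq]
    unfold gv
    have h3 : ‖x‖ ≠ 0 := (h0.trans h2.1).ne'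
    rw [norm_smul, norm_smul, norm_inv, norm_norm, inv_mul_cancel₀ h3, mul_one, Real.norm_eq_abs,
      sq_abs]
  have h2 : ∫ x, (D k (pr h x)) ^ 2 ∂(mu (shell d r0 r1)) = ∫ s, (D k s) ^ 2 ∂(nu d h) := by
    have h3 := integral_map (μ := mu (shell d r0 r1)) (φ := pr (d := d) h)
      (pr_cont h).measurable.aemeasurable (f := fun s => (D k s) ^ 2)
      ((D k).continuous.pow 2).aestronglyMeasurable
    exact h3.symm
  have h4 : ∫ s, (D k s) ^ 2 ∂(nu d h) = ∫ s in r0..r1, qq d s * flx k s * flx k s := by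
    rw [hpol (fun s => (D k s) ^ 2) ((D k).continuous.pow 2).stronglyMeasurable
      (Or.inl ⟨‖D k‖ ^ 2, Eventually.of_forall fun s => by
        rw [abs_pow]
        exact pow_le_pow_left₀ (abs_nonneg _) ((D k).norm_coe_le_norm s) 2⟩),
      ← intervalIntegral.integral_const_mul]
    apply intervalIntegral.integral_congr
    intro s hs
    rw [uIcc_of_le h] at hs
    simp only
    rw [projIcc_of_mem h hs, hO.D_eq]
    have hs0 : 0 < s := lt_of_lt_of_le h0 hs.1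
    unfold qq
    have h5 : s ^ (d - 1) ≠ 0 := (pow_pos hs0 _).ne'
    have h6 := hsg.ne'
    field_simp
  rw [h1, h2, h4, ← hO.symm k k, L2.inner_def]
  refine integral_congr_ae ?_
  filter_upwards [hv] with s hs
  rw [hs]
  simp only [RCLike.inner_apply, conj_trivial]

theorem shf (RDS : RdsStmt) (SPF : SpfStmt) (SCL : SclStmt) (RWF : RwfStmt) (RHT : RhtStmt)
    (POL : PolStmt) : ShfStmt := by
  intro d p r0 r1 a hd hd3 h0 h01 hp ha
  have hd1 : 1 ≤ d := by omega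
  have h : r0 ≤ r1 := h01.le
  obtain ⟨A, W, D, hA, hO, hcomp⟩ := RDS d r0 r1 h hd1 h0 h01
  obtain ⟨K, ω, φ, hK, hω, hφ, hSφ, hγ, hkap, hslv⟩ :=
    SPF d r0 r1 h A W D p hd hd3 h0 h01 hp hA hO hcomp
  obtain ⟨t0, c, C, u, x, k, w, hh, ht0, hc, hwc, hhc, H⟩ :=
    SCL C(Ic r0 r1, ℝ) C(Ic r0 r1, ℝ) (Lp ℝ 2 (nu d h)) A W p a ω φ K hp ha hω hφ hSφ hγ hK hkap
      hslv
  have hs : ∀ t : ℝ, 0 ≤ t → t0 < t + (t0 + 1) := fun t ht => by linarith
  have hSX : ∀ k, W.S k =ᵐ[nu d h] fun r => W.SX k r := by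
    intro k
    rw [← W.e_SX]
    exact hA _
  have hpow : ∀ (x : C(Ic r0 r1, ℝ)) (n : ℕ), A.e (x ^ n) =ᵐ[nu d h] fun r => x r ^ n := by
    intro x n
    exact hA _
  refine ⟨fun t => J d h (u (t + (t0 + 1))), fun t => J d h (A.e (x (t + (t0 + 1)))),
    fun t => J d h (w (t + (t0 + 1))), fun t => JG h (D (hh (t + (t0 + 1)))), ?_, ?_, ?_⟩
  · refine ⟨?_, ?_, ?_, ?_, ?_, ?_, ?_, ?_⟩
    · intro t ht
      obtain ⟨-, -, -, hu, -, -, -⟩ := H _ (hs t ht)
      show (J d h (u (t + (t0 + 1))), JG h (D (hh (t + (t0 + 1))))) ∈ H10 _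
      rw [hu]
      exact mem_H10 RHT hd1 h0 h01 hO _ _ (hSX _)
    · intro t ht
      obtain ⟨-, -, hx, -, -, -, -⟩ := H _ (hs t ht)
      refine ⟨JG h (D (k (t + (t0 + 1)))), ?_⟩
      show (J d h (A.e (x (t + (t0 + 1)))), JG h (D (k (t + (t0 + 1))))) ∈ H10 _
      rw [hx]
      exact mem_H10 RHT hd1 h0 h01 hO _ _ (hA _)
    · intro t ht
      obtain ⟨hu, -, -, -, -, -, -⟩ := H _ (hs t ht)
      exact (J d h).hasFDerivAt.comp_hasDerivAt t (hu.comp_add_const t (t0 + 1))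
    · intro t ht
      obtain ⟨-, hv, -, -, -, -, -⟩ := H _ (hs t ht)
      exact (J d h).hasFDerivAt.comp_hasDerivAt t (hv.comp_add_const t (t0 + 1))
    · refine ((JG h).comp D).continuous.comp_continuousOn (hhc.comp (by fun_prop) ?_)
      intro t ht
      exact hs t ht
    · refine (J d h).continuous.comp_continuousOn (hwc.comp (by fun_prop) ?_)
      intro t ht
      exact hs t ht
    · intro t ht
      refine ⟨‖x (t + (t0 + 1))‖, ?_⟩
      filter_upwards [J_ae' h (hA (x (t + (t0 + 1))))] with z hz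
      rw [hz]
      exact (x (t + (t0 + 1))).norm_coe_le_norm _
    · intro t ht ψ hψ
      obtain ⟨-, -, -, -, heq, -, -⟩ := H _ (hs t ht)
      set s := t + (t0 + 1) with hsdef
      have hJx := J_ae' h (hA (x s))
      have hJp := J_ae' h (hpow (x s) (2 * p + 1))
      have h1 : ∀ᵐ z ∂(mu (shell d r0 r1)),
          a * |J d h (A.e (x s)) z| ^ ((2 * p : ℕ) : ℝ) * J d h (A.e (x s)) z * ψ z =
          a * (J d h (A.e (x s ^ (2 * p + 1))) z * ψ z) := by
        filter_upwards [hJx, hJp] with z hz1 hz2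
        rw [hz1, hz2, Real.rpow_natCast, pow_mul, sq_abs, ← pow_mul]
        ring
      have h2 : ∀ᵐ z ∂(mu (shell d r0 r1)), J d h (w s) z * ψ z + J d h (hh s) z * ψ z +
          a * (J d h (A.e (x s ^ (2 * p + 1))) z * ψ z) = 0 := by
        have h3 : (J d h (w s) + J d h (hh s) + a • J d h (A.e (x s ^ (2 * p + 1))) :
            Lp ℝ 2 (mu (shell d r0 r1))) =ᵐ[mu (shell d r0 r1)] 0 := by
          rw [← map_smul, ← map_add, ← map_add, heq, map_zero]
          exact Lp.coeFn_zero _ _ _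
        filter_upwards [h3, Lp.coeFn_add (J d h (w s) + J d h (hh s))
          (a • J d h (A.e (x s ^ (2 * p + 1)))), Lp.coeFn_add (J d h (w s)) (J d h (hh s)),
          Lp.coeFn_smul a (J d h (A.e (x s ^ (2 * p + 1))))] with z h4 h5 h6 h7
        rw [h5] at h4
        simp only [Pi.add_apply, Pi.zero_apply] at h4
        rw [h6, h7] at h4
        simp only [Pi.add_apply, Pi.smul_apply, smul_eq_mul] at h4
        have h8 := congrArg (fun r => r * ψ z) h4
        simp only [zero_mul] at h8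
        linarith
      have hw' : ∫ z, ⟪JG (d := d) h (D (hh s)) z, gradient ψ z⟫_ℝ ∂(mu (shell d r0 r1)) =
          ∫ z, J d h (hh s) z * ψ z ∂(mu (shell d r0 r1)) := by
        have e1 : ∫ z, ⟪JG (d := d) h (D (hh s)) z, gradient ψ z⟫_ℝ ∂(mu (shell d r0 r1)) =
            ∫ z, ⟪D (hh s) (pr h z) • (‖z‖⁻¹ • z), gradient ψ z⟫_ℝ ∂(mu (shell d r0 r1)) := by
          refine integral_congr_ae ?_
          filter_upwards [JG_ae h (D (hh s))] with z hz
          rw [hz]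
          rfl
        rw [e1, RWF d r0 r1 h D W.SX hd1 h0 h01 hO (hh s) ψ hψ]
        refine integral_congr_ae ?_
        filter_upwards [J_ae h (hh s)] with z hz
        rw [hz]
      have i1 := int_mul (J d h (w s)) hψ
      have i2 := int_mul (J d h (hh s)) hψ
      have i3 := int_inner (JG (d := d) h (D (hh s))) hψ
      have i4 := (int_mul (J d h (A.e (x s ^ (2 * p + 1)))) hψ).const_mul a
      have e1 : ∫ z, J d h (w s) z * ψ z + ⟪JG (d := d) h (D (hh s)) z, gradient ψ z⟫_ℝ +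
          a * |J d h (A.e (x s)) z| ^ ((2 * p : ℕ) : ℝ) * J d h (A.e (x s)) z * ψ z
            ∂(mu (shell d r0 r1)) =
          ∫ z, (J d h (w s) z * ψ z + ⟪JG (d := d) h (D (hh s)) z, gradient ψ z⟫_ℝ) +
            a * (J d h (A.e (x s ^ (2 * p + 1))) z * ψ z) ∂(mu (shell d r0 r1)) := by
        refine integral_congr_ae ?_
        filter_upwards [h1] with z hz
        rw [hz]
      have e2 : ∫ z, (J d h (w s) z * ψ z + J d h (hh s) z * ψ z) +
          a * (J d h (A.e (x s ^ (2 * p + 1))) z * ψ z) ∂(mu (shell d r0 r1)) = 0 := by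
        rw [integral_congr_ae (g := fun _ => (0 : ℝ)) h2]
        simp
      rw [int3 i1 i2 i4] at e2
      show ∫ z, J d h (w s) z * ψ z + ⟪JG (d := d) h (D (hh s)) z, gradient ψ z⟫_ℝ +
          a * |J d h (A.e (x s)) z| ^ ((2 * p : ℕ) : ℝ) * J d h (A.e (x s)) z * ψ z
            ∂(mu (shell d r0 r1)) = 0
      rw [e1, int3 i1 i3 i4, hw']
      exact e2
  · intro t ht
    obtain ⟨-, -, -, hu, -, -, -⟩ := H _ (hs t ht)
    refine ⟨fun r => W.SX (hh (t + (t0 + 1))) (projIcc r0 r1 h r), ?_⟩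
    show J d h (u (t + (t0 + 1))) =ᵐ[mu (shell d r0 r1)] _
    rw [hu]
    exact J_ae' h (hSX _)
  · have hexp : (-(2 / ((2 * p : ℕ) : ℝ))) = -(1 / (p : ℝ)) := by
      have : (p : ℝ) ≠ 0 := by positivity
      push_cast
      field_simp
    have hC : 0 < C := by
      obtain ⟨-, -, -, -, -, h1, h2⟩ := H (t0 + 1) (by linarith)
      have h3 : 0 < (t0 + 1) ^ (-(1 / (p : ℝ))) := Real.rpow_pos_of_pos (by linarith) _
      have h4 : c * (t0 + 1) ^ (-(1 / (p : ℝ))) ≤ C * (t0 + 1) ^ (-(1 / (p : ℝ))) := h1.trans h2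
      have h5 := le_of_mul_le_mul_right h4 h3
      linarith
    refine ⟨c * (t0 + 1) ^ (-(1 / (p : ℝ))), C, mul_pos hc (Real.rpow_pos_of_pos (by linarith) _),
      fun t ht => ?_⟩
    obtain ⟨-, -, -, -, -, h1, h2⟩ := H _ (hs t ht)
    rw [hexp, energy_eq]
    show _ ≤ ‖J d h (A.e (x (t + (t0 + 1))))‖ ^ 2 + ‖JG (d := d) h (D (hh (t + (t0 + 1))))‖ ^ 2 ∧
      ‖J d h (A.e (x (t + (t0 + 1))))‖ ^ 2 + ‖JG (d := d) h (D (hh (t + (t0 + 1))))‖ ^ 2 ≤ _
    rw [J_norm, JG_norm POL hd1 h0 h01 hO _ _ (hSX _)]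
    have hneg : -(1 / (p : ℝ)) ≤ 0 := by
      have : 0 ≤ 1 / (p : ℝ) := by positivity
      linarith
    constructor
    · refine le_trans ?_ h1
      rw [mul_assoc, ← Real.mul_rpow (by linarith) (by linarith)]
      refine mul_le_mul_of_nonneg_left ?_ hc.le
      refine Real.rpow_le_rpow_of_nonpos (by linarith) ?_ hneg
      nlinarith
    · refine h2.trans ?_
      refine mul_le_mul_of_nonneg_left ?_ hC.le
      exact Real.rpow_le_rpow_of_nonpos (by linarith) (by linarith) hneg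

end

end Pool.Agent.Helper70BE01Shf
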