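import Pool.Agent.Helper70_BE01.All
import Pool.Agent.Helper70_BE01.Shf
import Pool.Agent.Helper99_BE01.Al1
import Pool.Agent.Helper72_BE01.Amp
import Pool.Agent.Helper72_BE01.Asy
import Pool.Agent.Helper19_BE01.Eig
import Pool.Agent.Helper99_BE01.Ifd
import Pool.Agent.Helper43_BE01.Inf
import Pool.Agent.Helper87_BE01.Nrs
import Pool.Agent.Helper43_BE01.Ode
import Pool.Agent.Helper48_BE01.Opr
import Pool.Agent.Helper51_BE01.Pru
import Pool.Agent.Helper89_BE01.PWM
import Pool.Agent.Helper5_BE01.Rds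
import Pool.Agent.Helper29_BE01.Rht
import Pool.Agent.Helper29_BE01.Rwf
import Pool.Agent.Helper89_BE01.SPS
import Pool.Agent.Helper87_BE01.Spf
import Pool.Agent.Helper51_BE01.Uni
import Pool.Agent.Helper48_BE01.Wva

/-!
# Squad BE01 (MP_be01ff_an): all modules of the theorem for shells together
-/

namespace Pool.Agent.Helper70BE01AllS

open Pool.Agent Pool.Agent.BE01

theorem wva : WvaStmt := BE01.H48.wva BE01.H51.eib Helper82_BE01.dia

theorem inf : InfStmt := BE01.H43.inf BE01.H51.eib

theorem ode : OdeStmt := BE01.H43.ode BE01.H51.pru BE01.H51.uni BE01.H72.asy BE01.H72.amp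

section

variable (pol : PolStmt)

include pol

theorem ifd : IfdStmt := BE01.H99.ifd pol

theorem opr : OprStmt := BE01.H48.opr pol

theorem rds : RdsStmt := BE01.H5.rds pol BE01.H99.al1 (opr pol) wva BE01.H72.hsc

theorem eig : EigStmt := BE01.H19.eig pol

theorem spb : SpbStmt := Helper89BE01SPS.spb pol (eig pol) ode

theorem sps : SpsStmt := Helper89BE01SPS.sps (eig pol) BE01.H51.uni BE01.H51.pru

theorem spf : SpfStmt := BE01.H87.spf (spb pol) (sps pol) Helper89BE01PWM.pwm BE01.H87.nrs inf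
  (ifd pol) BE01.H69.fre pol

end

end Pool.Agent.Helper70BE01AllS
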