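import Pool.Agent.Helper70_BE01.Shf

/-!
# Squad BE01 (MP_be01ff_an): module POL (backup)
-/

namespace Pool.Agent.Helper70BE01Pol

open Pool.Agent.BE01 Pool.Agent.Helper70BE01Shf
open Set Filter Topology MeasureTheory
open scoped InnerProductSpace ENNReal

noncomputable section

theorem pol : PolStmt := by
  intro d r0 r1 h hd h0 h01
  have hd' : 0 < d := hd
  have hnt : Nontrivial (En d) := by
    have : Nonempty (Fin d) := ⟨⟨0, hd'⟩⟩
    infer_instance
  have hfr : Module.finrank ℝ (En d) = d := by simp
  have hsg : 0 < sg d := by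
    unfold sg
    refine mul_pos (by exact_mod_cast hd') ?_
    rw [Measure.real, ENNReal.toReal_pos_iff]
    exact ⟨Metric.measure_ball_pos _ _ one_pos, Metric.isBounded_ball.measure_lt_top⟩
  have hfin : IsFiniteMeasure (nu d h) := by
    unfold nu
    exact Measure.isFiniteMeasure_map _ _
  refine ⟨hsg, hfin, ?_, ?_, ?_⟩
  · intro U hU hne
    -- a point of `U` in the open interval
    have hex : ∃ s ∈ U, r0 < (s : ℝ) ∧ (s : ℝ) < r1 := by
      obtain ⟨s, hs⟩ := hne
      obtain ⟨ε, hε, hball⟩ := Metric.isOpen_iff.1 hU s hs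
      -- move towards the middle
      set m : ℝ := (r0 + r1) / 2 with hm
      set δ : ℝ := min 1 (ε / (2 * (r1 - r0))) with hδ
      have hL : 0 < r1 - r0 := by linarith
      have hδ0 : 0 < δ := lt_min one_pos (by positivity)
      have hδ1 : δ ≤ 1 := min_le_left _ _
      have hs1 := s.2.1
      have hs2 := s.2.2
      have h1 : r0 < (s : ℝ) + δ * (m - s) := by nlinarith
      have h2 : (s : ℝ) + δ * (m - s) < r1 := by nlinarith
      refine ⟨⟨(s : ℝ) + δ * (m - s), h1.le, h2.le⟩, hball ?_, h1, h2⟩
      rw [Metric.mem_ball, Subtype.dist_eq, Real.dist_eq]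
      have e : (s : ℝ) + δ * (m - s) - s = δ * (m - s) := by ring
      show |(s : ℝ) + δ * (m - s) - s| < ε
      rw [e, abs_mul, abs_of_pos hδ0]
      have h3 : |m - (s : ℝ)| ≤ r1 - r0 := by
        rw [abs_le]
        constructor <;> linarith
      have h4 : δ ≤ ε / (2 * (r1 - r0)) := min_le_right _ _
      calc δ * |m - (s : ℝ)| ≤ ε / (2 * (r1 - r0)) * (r1 - r0) :=
            mul_le_mul h4 h3 (abs_nonneg _) (by positivity)
        _ = ε / 2 := by field_simp
        _ < ε := by linarith
    obtain ⟨s, hs, hs1, hs2⟩ := hex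
    unfold nu
    rw [Measure.map_apply (pr_cont h).measurable hU.measurableSet]
    unfold mu
    rw [Measure.restrict_apply' (shell_open d r0 r1).measurableSet]
    obtain ⟨e, he⟩ := exists_norm_eq (En d) (zero_le_one (α := ℝ))
    refine IsOpen.measure_pos volume ((hU.preimage (pr_cont h)).inter (shell_open d r0 r1))
      ⟨(s : ℝ) • e, ?_⟩
    have hn : ‖(s : ℝ) • e‖ = s := by
      rw [norm_smul, he, mul_one, Real.norm_eq_abs, abs_of_pos (h0.trans hs1)]
    have hin : (s : ℝ) • e ∈ shell d r0 r1 := by
      show r0 < ‖(s : ℝ) • e‖ ∧ ‖(s : ℝ) • e‖ < r1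
      rw [hn]
      exact ⟨hs1, hs2⟩
    refine ⟨?_, hin⟩
    show pr h ((s : ℝ) • e) ∈ U
    have : pr h ((s : ℝ) • e) = s := Subtype.ext (by rw [pr_val h hin, hn])
    rw [this]
    exact hs
  · intro r
    unfold nu
    rw [Measure.map_apply (pr_cont h).measurable (measurableSet_singleton r)]
    unfold mu
    rw [Measure.restrict_apply' (shell_open d r0 r1).measurableSet]
    refine measure_mono_null (t := Metric.sphere (0 : En d) (r : ℝ)) ?_
      (Measure.addHaar_sphere volume _ _)
    rintro x ⟨hx1, hx2⟩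
    rw [mem_sphere_zero_iff_norm, ← pr_val h hx2]
    have : pr h x = r := hx1
    rw [this]
  · intro f hf _
    unfold nu
    rw [integral_map (pr_cont h).measurable.aemeasurable hf.aestronglyMeasurable]
    unfold mu
    rw [← integral_indicator (shell_open d r0 r1).measurableSet]
    have e1 : (shell d r0 r1).indicator (fun x : En d => f (pr h x)) =
        fun x => (Ioo r0 r1).indicator (fun r => f (projIcc r0 r1 h r)) ‖x‖ := by
      funext x
      by_cases hx : x ∈ shell d r0 r1
      · rw [indicator_of_mem hx, indicator_of_mem (show ‖x‖ ∈ Ioo r0 r1 from hx)]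
        rfl
      · rw [indicator_of_notMem hx, indicator_of_notMem (show ‖x‖ ∉ Ioo r0 r1 from hx)]
    rw [e1, integral_fun_norm_addHaar (μ := (volume : Measure (En d))), hfr]
    have e2 : ∫ y in Ioi (0 : ℝ), y ^ (d - 1) •
        (Ioo r0 r1).indicator (fun r => f (projIcc r0 r1 h r)) y =
        ∫ r in r0..r1, r ^ (d - 1) * f (projIcc r0 r1 h r) := by
      rw [intervalIntegral.integral_of_le h, integral_Ioc_eq_integral_Ioo,
        ← integral_indicator measurableSet_Ioi, ← integral_indicator measurableSet_Ioo]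
      congr 1
      funext y
      by_cases hy : y ∈ Ioo r0 r1
      · have hy0 : y ∈ Ioi (0 : ℝ) := h0.trans hy.1
        rw [indicator_of_mem hy0, indicator_of_mem hy, indicator_of_mem hy, smul_eq_mul]
      · rw [indicator_of_notMem hy]
        by_cases hy0 : y ∈ Ioi (0 : ℝ)
        · rw [indicator_of_mem hy0, indicator_of_notMem hy, smul_zero]
        · rw [indicator_of_notMem hy0]
    rw [e2]
    unfold sg
    simp only [nsmul_eq_mul, smul_eq_mul]
    ring

end

end Pool.Agent.Helper70BE01Pol
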