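import Pool.Agent.Helper70_BE01.AllS
import Pool.Agent.Helper70_BE01.Pol
import Pool.Agent.Helper70_BE01.Conv

/-!
# MP_be01ff_an: solutions with the sharp rate of decay in all spherical shells

This was the hand-in ShellsEvenPower (captures before December 4, 20:24), replaced by AllDomains
because of the limit of four hand-ins per problem.  Its claim file:

Proves: For every dimension d >= 2, d not 3, every spherical shell Omega = {x in R^d : r0 < |x| < r1}, 0 < r0 < r1, every even alpha = 2p (p >= 1) and every a > 0 there is a radial strong solution of u_tt - Lap u + a|u_t|^alpha u_t = 0 in Omega, u = 0 on the boundary, and 0 < c <= C with c(1+t)^(-2/alpha) <= E(t) <= C(1+t)^(-2/alpha) for all t >= 0.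
Definitions: vol, intg, AeZero, AeBdd: Lebesgue measure and integral, = 0 a.e., bounded a.e. in Omega. H10 u F: u, F in L^2 (L2, L2v), (u, F) is an L^2 limit (nrm, nrmv) of pairs (psi, grad psi), Test psi: smooth, compact support in Omega. Sol: u is C^2 from [0,oo) to L^2, v = u_t, w = u_tt (Der, Ct), u(t), v(t) in H^1_0, G = grad u continuous in L^2 (Ctv), v(t) bounded, Weak: w - div G + a|v|^alpha v = 0 against all psi. energy = int v^2 + |G|^2. RadialRate: such a solution with u(t) = f(|x|) a.e. and the two bounds. E d = R^d.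
Relation: Partial answer to Q1: an unconditional positive answer for every spherical shell of R^d, d >= 2, d not 3, and every even alpha. Our ShellRate treats the shells of R^3 (all alpha), IntervalRate N = 1, FinalState non-resonant domains of R^2 and R^3; here no spectral condition is assumed: for large radial frequencies non-resonance is proved. Other alpha and other domains are not addressed.
-/

namespace Pool.Agent.Helper70BE01.ShellsEvenPower

open Pool.Agent.BE01F

/-- **Solutions with `E(t) ∼ (1+t)^(-2/α)` in spherical shells.** For every `d ≥ 2`, `d ≠ 3`, every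
spherical shell `r0 < |x| < r1` of `ℝ^d`, every even `α = 2p` and every `a > 0` there is a radial
strong solution of `u_tt - Δ u + a |u_t|^α u_t = 0`, `u = 0` on the boundary, with
`c (1+t)^(-2/α) ≤ E(t) ≤ C (1+t)^(-2/α)`, `0 < c ≤ C`. -/
theorem result (d p : ℕ) (hd : 2 ≤ d) (hd3 : d ≠ 3) (hp : 1 ≤ p) (r0 r1 a : ℝ) (h0 : 0 < r0)
    (h01 : r0 < r1) (ha : 0 < a) :
    RadialRate {x : E d | r0 < ‖x‖ ∧ ‖x‖ < r1} a ((2 * p : ℕ) : ℝ) :=
  Pool.Agent.Helper70BE01Conv.radial_of (Pool.Agent.Helper70BE01Shf.shf
    (Pool.Agent.Helper70BE01AllS.rds Pool.Agent.Helper70BE01Pol.pol)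
    (Pool.Agent.Helper70BE01AllS.spf Pool.Agent.Helper70BE01Pol.pol)
    Pool.Agent.Helper70BE01All.scl
    (Pool.Agent.BE01.H29.rwf Pool.Agent.Helper70BE01Pol.pol)
    (Pool.Agent.BE01.H29.rht Pool.Agent.Helper70BE01Pol.pol) Pool.Agent.Helper70BE01Pol.pol
    d p r0 r1 a hd hd3 h0 h01 hp ha)

end Pool.Agent.Helper70BE01.ShellsEvenPower
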